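import Pool.Agent.Lib.MP_dee342_nt.Ar.Asym

/-! The asymptotic step with long periods. -/

namespace Pool.Agent.Lib.MP_dee342_nt.Ar

open Finset

/-- Apply `asym A hA (16 * |C|)` to `p' = p / V`. Here `p + 2 ≤ V (p' + 2)`, so with
`L = log (p' + 2) ≥ 1 / 2`: `log (p + 2) ≤ log V + L ≤ (1 + 2 log V) L ≤ 4 √V L`, hence
`C log (p + 2) ^ 2 ≤ V * (16 |C| L ^ 2)` and `exp (..) ≤ (2 ^ Z) ^ V`. At the end `p < V (p' + 1)`:
`log p ≤ log V` if `p' = 0`, and `log p ≤ log V + log 2 + log p'` if not; take `|K| + 1`. -/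
theorem asymT (A : ℕ) (hA : 3 ≤ A) (C : ℝ) : ∃ K : ℝ, 0 ≤ K ∧ ∀ m p V : ℕ, 0 < V →
    (∀ R r Z : ℕ, 10 ^ 7 * (A + 4) ^ 4 ≤ R → 60 * A ^ 3 * (r + 1) ≤ R →
      R ^ 20 * 2 ^ R ^ 14 ≤ Z → Real.exp (C * Real.log (p + 2) ^ 2) ≤ 2 ^ (V * Z) →
      p ≤ V * (4 * A ^ 2 * (m + 1) * ((4 * A) ^ (m / (r + 1) + R ^ 27) * Z))) →
    Real.log p ≤ Real.log V + K * ((m : ℝ) + 1) ^ (27 / 28 : ℝ) := by
  obtain ⟨K, hK⟩ := asym A hA (16 * |C|)
  refine ⟨|K| + 1, by positivity, fun m p V hV h => ?_⟩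
  have hV1 : (1 : ℝ) ≤ V := by exact_mod_cast hV
  have hlV : 0 ≤ Real.log V := Real.log_nonneg hV1
  obtain ⟨q, hq⟩ : ∃ q, q = p / V := ⟨_, rfl⟩
  have hq0 : (0 : ℝ) ≤ q := Nat.cast_nonneg q
  have hp0 : (0 : ℝ) ≤ p := Nat.cast_nonneg p
  have hpq : (p : ℝ) + 1 ≤ V * (q + 1) := by
    have : p + 1 ≤ V * (p / V + 1) := Nat.lt_mul_div_succ p hV
    rw [← hq] at this
    exact_mod_cast this
  have h1 := hK m q fun R r Z a1 a2 a3 a4 => by
    rw [hq]
    refine Nat.div_le_of_le_mul (h R r Z a1 a2 a3 ?_)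
    obtain ⟨L, hL⟩ : ∃ L, L = Real.log (q + 2) := ⟨_, rfl⟩
    have b1 : 1 / 2 ≤ L := by
      have := Real.log_le_log (show (0 : ℝ) < 2 by norm_num) (show (2 : ℝ) ≤ q + 2 by linarith)
      linarith [Real.log_two_gt_d9]
    have b2 : Real.log (p + 2) ≤ Real.log V + L := by
      rw [hL, ← Real.log_mul (by linarith) (by linarith)]
      exact Real.log_le_log (by linarith) (by nlinarith)
    have b3 : Real.log V ≤ 2 * (√V - 1) := by
      have := Real.log_le_sub_one_of_pos (Real.sqrt_pos.2 (show (0 : ℝ) < V by linarith))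
      rw [Real.log_sqrt (by linarith)] at this
      linarith
    have b4 : Real.log (p + 2) ≤ 4 * √V * L := by nlinarith
    have b5 : Real.log (p + 2) ^ 2 ≤ 16 * V * L ^ 2 := by
      refine (pow_le_pow_left₀ (Real.log_nonneg (by linarith)) b4 2).trans (le_of_eq ?_)
      rw [mul_pow, mul_pow, Real.sq_sqrt (by linarith)]
      norm_num
    rw [← hL] at a4
    rw [mul_comm V Z, pow_mul]
    refine le_trans ?_ (pow_le_pow_left₀ (Real.exp_pos _).le a4 V)
    rw [← Real.exp_nat_mul, Real.exp_le_exp]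
    have b6 := mul_le_mul_of_nonneg_right (le_abs_self C) (sq_nonneg (Real.log (p + 2)))
    have b7 := mul_le_mul_of_nonneg_left b5 (abs_nonneg C)
    linarith
  have hT : 1 ≤ ((m : ℝ) + 1) ^ (27 / 28 : ℝ) :=
    Real.one_le_rpow (by linarith [Nat.cast_nonneg (α := ℝ) m]) (by norm_num)
  generalize ((m : ℝ) + 1) ^ (27 / 28 : ℝ) = T at *
  have h2 := mul_le_mul_of_nonneg_right (le_abs_self K) (show 0 ≤ T by linarith)
  have h3 : 0 ≤ |K| * T := mul_nonneg (abs_nonneg K) (by linarith)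
  rcases Nat.eq_zero_or_pos p with rfl | hp
  · rw [Nat.cast_zero, Real.log_zero]
    linarith
  have hp1 : (0 : ℝ) < p := by exact_mod_cast hp
  rcases Nat.eq_zero_or_pos q with rfl | hq1
  · have := Real.log_le_log hp1 (show (p : ℝ) ≤ V by
      rw [Nat.cast_zero] at hpq
      linarith)
    linarith
  · have hq2 : (1 : ℝ) ≤ q := by exact_mod_cast hq1
    have h4 := Real.log_le_log hp1 (show (p : ℝ) ≤ V * (2 * q) by nlinarith)
    rw [Real.log_mul (by linarith) (by linarith), Real.log_mul (by norm_num) (by linarith)] at h4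
    linarith [Real.log_two_lt_d9]

end Pool.Agent.Lib.MP_dee342_nt.Ar
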