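import Pool.Agent.Lib.MP_dee342_nt.Ar5.Defs
import Pool.Agent.Lib.MP_dee342_nt.Ar4.Ext

/-! Cuttings of an orbit into blocks. -/

namespace Pool.Agent.Lib.MP_dee342_nt.Ar

open Finset

variable {V K J : ℕ} {x : ℕ → ℤ} {u : ℕ → ℕ}

/-- Every piece is a block. -/
def PCut (V K J : ℕ) (x : ℕ → ℤ) (u : ℕ → ℕ) : Prop := ∀ i, PerBlock V K J x (u i) (u (i + 1))

theorem PCut.mono (hu : PCut V K J x u) : Monotone u :=
  monotone_nat_of_le_succ fun n => (hu n).1.le

/-- If `x s = 0` then `2 ≤ 2 ^ (t - s) ≤ 0 ^ J ≤ 1`. -/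
theorem pblk_ne {s t : ℕ} (h : PerBlock V K J x s t) : x s ≠ 0 := by
  intro c
  have h1 := h.2.1
  have h2 : (2 : ℤ) ≤ 2 ^ (t - s) := le_self_pow₀ one_le_two (by have := h.1; omega)
  rw [c, abs_zero, mul_zero] at h1
  have := pow_le_one₀ (n := J) (le_refl (0 : ℤ)) zero_le_one
  omega

/-- Twin of `BCut.low` in `Ar4/Bas.lean`. -/
theorem PCut.low (hu : PCut V K J x u) (h0 : u 0 = 0) (n : ℕ) :
    ∀ i ≤ u n, ∃ j ≤ n, 2 ^ V * |x (u j)| ≤ 2 ^ V * |x i| ∨
      2 ^ V * |x (u j)| ≤ 2 ^ V * (2 ^ V * |x i|) ^ K := by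
  induction n with
  | zero =>
    refine fun i hi => ⟨0, le_rfl, Or.inl ?_⟩
    rw [show i = u 0 by omega]
  | succ n ih =>
    intro i hi
    by_cases h1 : i ≤ u n
    · obtain ⟨j, h2, h3⟩ := ih i h1
      exact ⟨j, by omega, h3⟩
    · exact ⟨n + 1, le_rfl, Or.inr (mul_le_mul_of_nonneg_left
        ((hu n).2.2.1 i (by omega) hi) (by positivity))⟩

theorem t5bas_shift {s t : ℕ} (c : ℕ) (h : PerBlock V K J x (c + s) (c + t)) :
    PerBlock V K J (fun i => x (c + i)) s t := by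
  obtain ⟨h0, h1, h2, v, w, k1, k2, h3, h4, h5, h6⟩ := h
  obtain ⟨w, rfl⟩ : ∃ w', w = c + w' := ⟨w - c, by omega⟩
  rw [Nat.add_sub_add_left] at h1 h6
  exact ⟨by omega, h1, fun i k1 k2 => h2 _ (by omega) (by omega), v, w, k1, k2, by omega, by omega,
    fun j k1 k2 => by simpa only [add_assoc] using h5 (c + j) (by omega) (by omega),
    fun i k1 k2 => h6 _ (by omega) (by omega)⟩

/-- Twin of `BCut.shift`. -/
theorem PCut.shift (hu : PCut V K J x u) (j : ℕ) :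
    PCut V K J (fun i => x (u j + i)) fun i => u (j + i) - u j := by
  intro i
  refine t5bas_shift (u j) ?_
  rw [Nat.add_sub_cancel' (hu.mono (Nat.le_add_right _ _)),
    Nat.add_sub_cancel' (hu.mono (Nat.le_add_right _ _))]
  exact hu (j + i)

theorem t5bas_up {s t c : ℕ} (hx : ∀ i, x (i + c) = x i) (h : PerBlock V K J x s t) :
    PerBlock V K J x (s + c) (t + c) := by
  obtain ⟨h0, h1, h2, v, w, k3, k4, h3, h4, h5, h6⟩ := h
  refine ⟨by omega, by rwa [Nat.add_sub_add_right, hx], fun i k1 k2 => ?_, v, w + c, k3, k4,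
    by omega, by omega, fun j k1 k2 => ?_, fun i k1 k2 => ?_⟩
  · obtain ⟨i, rfl⟩ : ∃ i', i = i' + c := ⟨i - c, by omega⟩
    rw [hx, hx]
    exact h2 i (by omega) (by omega)
  · obtain ⟨j, rfl⟩ : ∃ j', j = j' + c := ⟨j - c, by omega⟩
    rw [add_right_comm j c, hx, hx]
    exact h5 j (by omega) (by omega)
  · obtain ⟨i, rfl⟩ : ∃ i', i = i' + c := ⟨i - c, by omega⟩
    rw [hx, hx, Nat.add_sub_add_right]
    exact h6 i (by omega) (by omega)

/-- Twin of `bcut_ext` in `Ar4/Ext.lean` (use `b4ext_per`, `b4ext_succ`). -/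
theorem pcut_ext {M : ℕ} (x : ℕ → ℤ) (u : ℕ → ℕ) (hM : 0 < M) (hu0 : u 0 = 0)
    (hx : ∀ i, x (i + u M) = x i) (hu : ∀ i < M, PerBlock V K J x (u i) (u (i + 1))) :
    ∃ w : ℕ → ℕ, w 0 = 0 ∧ PCut V K J x w ∧ ∀ i, w (i + M) = w i + u M := by
  refine ⟨fun i => u (i % M) + i / M * u M, by simp [hu0], fun i => ?_, fun i => ?_⟩
  · simp only [b4ext_succ u hM hu0]
    exact t5bas_up (b4ext_per x hx _) (hu _ (Nat.mod_lt i hM))
  · simp only [Nat.add_mod_right, Nat.add_div_right _ hM, add_mul, one_mul, add_assoc]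

/-- A block has at most `J L` steps. Induction on `n`. -/
theorem PCut.length (hu : PCut V K J x u) (hu0 : u 0 = 0) {L : ℕ} (n : ℕ)
    (hL : ∀ i < n, |2 ^ V * x (u i)| ≤ 2 ^ L) : u n ≤ n * (J * L) := by
  induction n with
  | zero => omega
  | succ n ih =>
    have h1 := ih fun i hi => hL i (by omega)
    have h2 := hL n (by omega)
    rw [abs_mul, abs_of_nonneg (by positivity : (0 : ℤ) ≤ 2 ^ V)] at h2
    have h3 := (hu n).2.1.trans (pow_le_pow_left₀ (by positivity) h2 J)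
    rw [← pow_mul, pow_le_pow_iff_right₀ one_lt_two, mul_comm] at h3
    rw [Nat.succ_mul]
    omega

end Pool.Agent.Lib.MP_dee342_nt.Ar
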