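import Pool.Agent.Lib.MP_dee342_nt.Ar5.Defs
import Pool.Agent.Lib.MP_dee342_nt.Ar4.Bas
import Pool.Agent.Lib.MP_dee342_nt.Ar.RepV
import Pool.Agent.Lib.MP_dee342_nt.Ar.Br

/-! A block of the sequence of odd terms is a block of the orbit. -/

namespace Pool.Agent.Lib.MP_dee342_nt.Ar

open Finset

theorem t5old_grow {a : ℕ} (y : ℕ → ℤ) (e : ℕ → ℕ)
    (h : ∀ i, 2 ^ e i * y (i + 1) = a * y i + 1) (h1 : ∀ j, 1 ≤ |y j|) (s k : ℕ) :
    (2 : ℤ) ^ bb e (s + k) * |y (s + k)| ≤ 2 ^ (bb e s + a * k) * |y s| := by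
  induction k with
  | zero => simp
  | succ k ih =>
    have h5 : (a : ℤ) + 1 ≤ 2 ^ a := by exact_mod_cast Nat.lt_two_pow_self
    have h3 : 2 ^ e (s + k) * |y (s + k + 1)| ≤ 2 ^ a * |y (s + k)| := by
      have h4 := abs_add_le (a * y (s + k)) 1
      rw [← h (s + k), abs_mul, abs_mul, abs_one, abs_pow, abs_two, Nat.abs_cast] at h4
      have h6 := h1 (s + k)
      nlinarith
    rw [← add_assoc, bb_succ, pow_add]
    calc _ = (2 : ℤ) ^ bb e (s + k) * (2 ^ e (s + k) * |y (s + k + 1)|) := by ring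
      _ ≤ 2 ^ bb e (s + k) * (2 ^ a * |y (s + k)|) := by gcongr
      _ = 2 ^ a * (2 ^ bb e (s + k) * |y (s + k)|) := by ring
      _ ≤ 2 ^ a * (2 ^ (bb e s + a * k) * |y s|) := by gcongr
      _ = _ := by ring

theorem t5old_dec {e : ℕ → ℕ} (he : ∀ i, 1 ≤ e i) (j : ℕ) :
    ∃ i d, j = bb e i + d ∧ d < e i := by
  induction j with
  | zero => exact ⟨0, 0, by simp [bb], he 0⟩
  | succ j ih =>
    obtain ⟨i, d, h1, h2⟩ := ih
    by_cases c : d + 1 < e i
    · exact ⟨i, d + 1, by omega, c⟩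
    · exact ⟨i + 1, 0, by rw [bb_succ]; omega, he _⟩

theorem t5old_lt (e : ℕ → ℕ) {i j : ℕ} (h : i < j) : bb e i + e i ≤ bb e j :=
  bb_succ e i ▸ bb_mono e h

theorem t5old_sub {e : ℕ → ℕ} (he : ∀ i, 1 ≤ e i) {s w : ℕ} (h : s ≤ w) :
    w - s ≤ bb e w - bb e s := by
  obtain ⟨k, rfl⟩ := Nat.exists_eq_add_of_le h
  have := le_bb (e := fun i => e (s + i)) (fun i => he _) k
  rw [bb_add]
  omega

/-- Let `w` be the end of the run of `hb`; take `bb e w` for `w`, and for `v` take `1` if `s = w`,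
and `S = ∑ i ∈ range V, e (s + i)` if not (`2 ^ S < a ^ V` gives `0 < V ≤ S ≤ a V`;
`bb e (i + V) = bb e i + S` for `s ≤ i < w` by `bb_add`, `sum_shift`). Every `j` is `bb e i + d`
with `d < e i`; `x j = y i` is odd if `d = 0`, and `x j = 2 ^ (e i - d) y (i + 1)` is even if not.
So for `bb e p ≤ j ≤ bb e t` either `j = bb e p` or `|y i| ≤ |x j|` for some `p < i ≤ t`. Length:
`2 ^ e i |y (i + 1)| ≤ 2 ^ a |y i|`, so `2 ^ (bb e t - bb e s) ≤ 2 ^ (a (t - s)) |y s|` (twin: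
`Ar4/Len.lean`). Last part: `w - s ≤ bb e w - bb e s`; at `j = bb e w` use
`|y (w + 1)| ≤ 2 ^ a |y w|` and `a (K + 1) ≤ K (a (V + 2))` if `K ≥ 1`, and `|y t| ≤ 1 ≤ |y w|` if
`K = 0`. -/
theorem old_mid {e : ℕ → ℕ} {x y : ℕ → ℤ} (he : ∀ i, 1 ≤ e i) (hy : ∀ i, Odd (y i))
    (h0 : ∀ i, x (bb e i) = y i)
    (h1 : ∀ i d, 0 < d → d ≤ e i → x (bb e i + d) = 2 ^ (e i - d) * y (i + 1)) {a V K J s t : ℕ}
    (ha3 : 3 ≤ a) (h : ∀ i, 2 ^ e i * y (i + 1) = a * y i + 1) (hb : Block a V K J y e s t) :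
    PerBlock (a * (V + 2)) K (a * J + 1) x (bb e s) (bb e t) := by
  have hst := blk_lt hb
  obtain ⟨b1, b2, w, b3, b4, b5, b6⟩ := hb
  have y1 : ∀ j, 1 ≤ |y j| := fun j => Int.one_le_abs fun c => by
    have := hy j
    rw [c] at this
    exact absurd this (by decide)
  have key : ∀ p j, bb e p ≤ j → j ≤ bb e t →
      j = bb e p ∨ ∃ i, p < i ∧ i ≤ t ∧ |y i| ≤ |x j| := by
    intro p j k1 k2
    obtain ⟨i, d, rfl, hd⟩ := t5old_dec he j
    have k3 : p ≤ i := not_lt.1 fun c => by have := t5old_lt e c; omega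
    rcases Nat.eq_zero_or_pos d with rfl | d0
    · rcases k3.eq_or_lt with rfl | k4
      · exact Or.inl rfl
      · refine Or.inr ⟨i, k4, not_lt.1 fun c => ?_, by rw [add_zero, h0]⟩
        have := t5old_lt e c
        have := he t
        omega
    · refine Or.inr ⟨i + 1, by omega, not_lt.1 fun c => ?_, ?_⟩
      · have := bb_mono e (show t ≤ i by omega)
        omega
      · rw [h1 i d d0 hd.le, abs_mul, abs_pow, abs_two]
        exact le_mul_of_one_le_left (abs_nonneg _) (one_le_pow₀ one_le_two)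
  have up : ∀ (n : ℕ) (z : ℤ), |z| ≤ 2 ^ n * |z| := fun n z =>
    le_mul_of_one_le_left (abs_nonneg _) (one_le_pow₀ one_le_two)
  have per : ∃ v, 0 < v ∧ v ≤ a * (V + 2) ∧
      ∀ j, bb e s ≤ j → j < bb e w → x (j + v) % 2 = x j % 2 := by
    rcases b3.eq_or_lt with rfl | c
    · exact ⟨1, one_pos, by nlinarith, fun j k1 k2 => by omega⟩
    have c1 := (b5 s le_rfl c).1
    have c2 : ∀ k, s + k ≤ w → ∑ i ∈ range V, e (s + k + i) = ∑ i ∈ range V, e (s + i) := by
      intro k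
      induction k with
      | zero => exact fun _ => rfl
      | succ k ih =>
        intro hk
        rw [← add_assoc, sum_shift e (b5 (s + k) (by omega) (by omega)).2, ih (by omega)]
    have c3 : V ≤ ∑ i ∈ range V, e (s + i) := le_bb (e := fun i => e (s + i)) (fun i => he _) V
    have c4 : 0 < V := Nat.pos_of_ne_zero fun c0 => by
      rw [c0] at c1
      simp at c1
    have c5 : ∑ i ∈ range V, e (s + i) < a * V := by
      have c6 : a ^ V ≤ (2 ^ a) ^ V := Nat.pow_le_pow_left Nat.lt_two_pow_self.le V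
      rw [← pow_mul] at c6
      exact (Nat.pow_lt_pow_iff_right one_lt_two).1 (c1.trans_le c6)
    refine ⟨∑ i ∈ range V, e (s + i), by omega, by nlinarith, fun j k1 k2 => ?_⟩
    obtain ⟨i, d, rfl, hd⟩ := t5old_dec he j
    have k3 : s ≤ i := not_lt.1 fun c => by have := t5old_lt e c; omega
    have k4 : i < w := not_le.1 fun c => by have := bb_mono e c; omega
    have k5 := (b5 i k3 k4).2
    obtain ⟨k, rfl⟩ := Nat.exists_eq_add_of_le k3
    have k6 : bb e (s + k) + d + ∑ i ∈ range V, e (s + i) = bb e (s + k + V) + d := by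
      rw [bb_add e (s + k) V, ← c2 k k4.le, add_right_comm]
      rfl
    rw [k6]
    rcases Nat.eq_zero_or_pos d with rfl | d0
    · rw [add_zero, add_zero, h0, h0, Int.odd_iff.1 (hy _), Int.odd_iff.1 (hy _)]
    · rw [h1 _ d d0 hd.le, h1 _ d d0 (by omega), k5]
      obtain ⟨r, hr⟩ : ∃ r, e (s + k) - d = r + 1 := ⟨e (s + k) - d - 1, by omega⟩
      rw [hr, pow_succ', mul_assoc, mul_assoc, Int.mul_emod_right, Int.mul_emod_right]
  obtain ⟨v, v1, v2, v3⟩ := per
  refine ⟨by have := t5old_lt e hst; have := he s; omega, ?_, fun j k1 k2 => ?_, v, bb e w, v1, v2,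
    bb_mono e b3, bb_mono e b4.le, v3, fun j k1 k2 => ?_⟩
  · obtain ⟨k, rfl⟩ := Nat.exists_eq_add_of_le hst.le
    obtain ⟨r, hr⟩ := Nat.exists_eq_add_of_le (bb_mono e hst.le)
    have g := t5old_grow y e h y1 s k
    rw [Nat.add_sub_cancel_left] at b1
    rw [hr, pow_add, pow_add, mul_assoc, mul_assoc] at g
    have g2 := le_of_mul_le_mul_left g (by positivity)
    rw [hr, Nat.add_sub_cancel_left, h0]
    calc (2 : ℤ) ^ r ≤ 2 ^ r * |y (s + k)| := le_mul_of_one_le_right (by positivity) (y1 _)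
      _ ≤ 2 ^ (a * k) * |y s| := g2
      _ = (2 ^ k) ^ a * |y s| := by rw [← pow_mul, mul_comm a k]
      _ ≤ (|y s| ^ J) ^ a * |y s| := by gcongr
      _ = |y s| ^ (a * J + 1) := by rw [← pow_mul, ← pow_succ, mul_comm a J]
      _ ≤ _ := pow_le_pow_left₀ (abs_nonneg _) (up _ _) _
  · rw [h0]
    rcases key s j k1 k2 with rfl | ⟨i, i1, i2, i3⟩
    · rw [h0]
      exact (b2 s le_rfl hst.le).trans (pow_le_pow_left₀ (abs_nonneg _) (up _ _) _)
    · exact (b2 i i1.le i2).trans (pow_le_pow_left₀ (abs_nonneg _) (i3.trans (up _ _)) _)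
  · rw [h0]
    have g0 := t5old_sub he b3
    rcases key w j k1 k2 with rfl | ⟨i, i1, i2, i3⟩
    · rw [h0]
      rcases Nat.eq_zero_or_pos K with rfl | K0
      · have := b2 s le_rfl hst.le
        have := y1 w
        simp only [zero_add, pow_one, zero_mul, pow_zero, one_mul] at *
        omega
      have g1 : |y (w + 1)| ≤ 2 ^ a * |y w| := by
        have g := t5old_grow y e h y1 w 1
        rw [bb_succ, mul_one, pow_add, pow_add, mul_assoc, mul_assoc] at g
        exact (up _ _).trans (le_of_mul_le_mul_left g (by positivity))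
      have g2 : K * (w - s) + a * (K + 1) ≤ K * (bb e w - bb e s + a * (V + 2)) := by
        have := Nat.mul_le_mul_left K g0
        have := Nat.mul_le_mul_left a (show K + 1 ≤ K * (V + 2) by nlinarith)
        nlinarith
      calc _ ≤ _ := b6 (w + 1) (by omega) b4
        _ ≤ 2 ^ (K * (w - s)) * (2 ^ a * |y w|) ^ (K + 1) := by gcongr
        _ = 2 ^ (K * (w - s) + a * (K + 1)) * |y w| ^ (K + 1) := by
          rw [mul_pow, ← pow_mul, pow_add 2 (K * (w - s)), mul_assoc]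
        _ ≤ _ := mul_le_mul_of_nonneg_right (pow_le_pow_right₀ one_le_two g2) (by positivity)
    · exact (b6 i i1 i2).trans (mul_le_mul (pow_le_pow_right₀ one_le_two
        (Nat.mul_le_mul_left K (by omega))) (pow_le_pow_left₀ (abs_nonneg _) i3 _) (by positivity)
        (by positivity))

theorem old_half {a : ℕ} (ha : Odd a) (ha3 : 3 ≤ a) {y : ℤ} (hy : Odd y) (i d : ℕ) (hd : 0 < d)
    (hd' : d ≤ syrE a ((syr a)^[i] y)) :
    (T a)^[bb (fun j => syrE a ((syr a)^[j] y)) i + d] y =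
      2 ^ (syrE a ((syr a)^[i] y) - d) * (syr a)^[i + 1] y := by
  rw [add_comm, Function.iterate_add_apply, (syr_iter ha ha3 hy i).2, Function.iterate_succ_apply']
  exact (syr_step ha ha3 (syr_iter ha ha3 hy i).1).2.2.2.2 d hd hd'

end Pool.Agent.Lib.MP_dee342_nt.Ar
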