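import Pool.Agent.Lib.MP_dee342_nt.Ar5.Defs
import Pool.Agent.Lib.MP_dee342_nt.Ar.Seq

/-! A piece with periodic parities is a block. -/

namespace Pool.Agent.Lib.MP_dee342_nt.Ar

open Finset

theorem t5word_step {a : ℕ} (ha3 : 3 ≤ a) (x : ℕ → ℤ) (f : ℕ → ℕ)
    (hf : ∀ i, (f i : ℤ) = x i % 2) (h : ∀ i, 2 * x (i + 1) = a ^ f i * x i + f i)
    (hx : ∀ i, x i ≠ 0) (i : ℕ) : |x (i + 1)| ≤ 2 ^ a * |x i| := by
  have h1 : (1 : ℤ) ≤ |x i| := Int.one_le_abs (hx i)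
  have h2 : (a : ℤ) + 1 ≤ 2 ^ a := by exact_mod_cast Nat.lt_two_pow_self
  have h3 : (3 : ℤ) ≤ a := by exact_mod_cast ha3
  have h4 : f i = 0 ∨ f i = 1 := by have := hf i; omega
  have h5 : 2 * |x (i + 1)| ≤ (a + 1) * |x i| := by
    have h6 : 2 * |x (i + 1)| = |2 * x (i + 1)| := by rw [abs_mul, abs_two]
    rw [h6, h i]
    rcases h4 with h4 | h4
    · rw [h4]
      simp only [pow_zero, one_mul, Nat.cast_zero, add_zero]
      nlinarith
    · rw [h4]
      simp only [pow_one, Nat.cast_one]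
      refine (abs_add_le _ _).trans ?_
      rw [abs_mul, Nat.abs_cast, abs_one]
      nlinarith
  have h7 := mul_le_mul_of_nonneg_right h2 (abs_nonneg (x i))
  have h8 := abs_nonneg (x (i + 1))
  linarith

theorem t5word_grow {a : ℕ} (ha3 : 3 ≤ a) (x : ℕ → ℤ) (f : ℕ → ℕ)
    (hf : ∀ i, (f i : ℤ) = x i % 2) (h : ∀ i, 2 * x (i + 1) = a ^ f i * x i + f i)
    (hx : ∀ i, x i ≠ 0) (i k : ℕ) : |x (i + k)| ≤ 2 ^ (a * k) * |x i| := by
  induction k with
  | zero => simp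
  | succ k ih =>
    have h1 := t5word_step ha3 x f hf h hx (i + k)
    rw [← add_assoc, mul_add, mul_one, pow_add]
    calc |x (i + k + 1)| ≤ 2 ^ a * |x (i + k)| := h1
      _ ≤ 2 ^ a * (2 ^ (a * k) * |x i|) := mul_le_mul_of_nonneg_left ih (by positivity)
      _ = _ := by ring

theorem t5word_dvd {a : ℕ} (ha : Odd a) (x : ℕ → ℤ) (f : ℕ → ℕ)
    (hf : ∀ i, (f i : ℤ) = x i % 2) (h : ∀ i, 2 * x (i + 1) = a ^ f i * x i + f i)
    {i v k : ℕ} (hper : ∀ j < k, x (i + j + v) % 2 = x (i + j) % 2) :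
    (2 : ℤ) ^ k ∣ x (i + v) - x i := by
  have key : ∀ n ≤ k, ∃ m : ℕ, 2 ^ n * (x (i + n + v) - x (i + n)) = a ^ m * (x (i + v) - x i) := by
    intro n
    induction n with
    | zero => intro _; exact ⟨0, by simp⟩
    | succ n ih =>
      intro hn
      obtain ⟨m, hm⟩ := ih (by omega)
      have e1 : f (i + n + v) = f (i + n) := by
        have h1 := hf (i + n + v)
        have h2 := hf (i + n)
        have h3 := hper n (by omega)
        omega
      have h3 := h (i + n + v)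
      rw [e1] at h3
      refine ⟨m + f (i + n), ?_⟩
      rw [← add_assoc, add_right_comm (i + n) 1 v, pow_succ, pow_add]
      linear_combination (2 : ℤ) ^ n * (h3 - h (i + n)) + (a : ℤ) ^ f (i + n) * hm
  obtain ⟨m, hm⟩ := key k le_rfl
  have hc : IsCoprime ((2 : ℤ) ^ k) ((a : ℤ) ^ m) := by
    have h3 : IsCoprime ((2 : ℕ) : ℤ) (a : ℤ) :=
      Nat.isCoprime_iff_coprime.2 (Nat.coprime_two_left.2 ha)
    exact_mod_cast h3.pow
  exact hc.dvd_of_dvd_mul_left ⟨_, hm.symm⟩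

/-- `|x (i + 1)| ≤ a |x i|`, so `|x (i + k)| ≤ 2 ^ (a k) |x i|`. Take `w = max s (t - v)`, so
`t - w ≤ v`. For `s ≤ i ≤ w`, `2 ^ (w - i)` divides `x (i + v) - x i ≠ 0` (as in `len_riseV`,
`Ar/RepV.lean`: `2 ^ k (x (i + k + v) - x (i + k)) = a ^ m (x (i + v) - x i)` for some `m`, `a`
odd), so `2 ^ (w - i) ≤ 2 ^ (a v + 1) |x i|`. Hence `2 ^ (t - i) ≤ 2 ^ (2 a V) |x i|` for all
`s ≤ i ≤ t`, and `|x t| ≤ (2 ^ (t - i)) ^ a |x i|`. Last part: `|x t| ≤ 2 ^ (a V) |x i|` and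
`a V (a + 2) ≤ (a + 1) (2 a V)`. -/
theorem word_block {a V : ℕ} (ha : Odd a) (ha3 : 3 ≤ a) (x : ℕ → ℤ) (f : ℕ → ℕ)
    (hf : ∀ i, (f i : ℤ) = x i % 2) (h : ∀ i, 2 * x (i + 1) = a ^ f i * x i + f i)
    (hx : ∀ i, x i ≠ 0) {s t v : ℕ} (hst : s < t) (hv : 0 < v) (hV : v ≤ V)
    (hne : ∀ j, x (j + v) ≠ x j) (hper : ∀ j, s ≤ j → j + v < t → x (j + v) % 2 = x j % 2) :
    PerBlock (2 * a * V) (a + 1) 1 x s t := by
  have hg := t5word_grow ha3 x f hf h hx
  have hone : ∀ i, (1 : ℤ) ≤ |x i| := fun i => Int.one_le_abs (hx i)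
  have hw : ∀ j, s ≤ j → j < max s (t - v) → x (j + v) % 2 = x j % 2 := fun j h1 h2 =>
    hper j h1 (by omega)
  have hav : a * v ≤ a * V := Nat.mul_le_mul_left a hV
  have hav2 : 3 * v ≤ a * v := Nat.mul_le_mul_right v ha3
  have e2 : 2 * a * V = a * V + a * V := by ring
  have hlen : ∀ i, s ≤ i → i ≤ t → (2 : ℤ) ^ (t - i) ≤ 2 ^ (2 * a * V) * |x i| := by
    intro i h1 h2
    by_cases h3 : i ≤ max s (t - v)
    · have h4 : (2 : ℤ) ^ (max s (t - v) - i) ∣ x (i + v) - x i :=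
        t5word_dvd ha x f hf h fun j hj => hw (i + j) (by omega) (by omega)
      have h5 := Int.le_of_dvd (abs_pos.2 (sub_ne_zero.2 (hne i))) ((dvd_abs _ _).2 h4)
      have h6 : |x (i + v) - x i| ≤ 2 ^ (a * v + 1) * |x i| := by
        have h7 := abs_sub (x (i + v)) (x i)
        have h8 := hg i v
        have h9 : |x i| ≤ 2 ^ (a * v) * |x i| :=
          le_mul_of_one_le_left (abs_nonneg _) (one_le_pow₀ one_le_two)
        rw [pow_succ]
        linarith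
      calc (2 : ℤ) ^ (t - i) ≤ 2 ^ (v + (max s (t - v) - i)) :=
            pow_le_pow_right₀ one_le_two (by omega)
        _ = 2 ^ v * 2 ^ (max s (t - v) - i) := pow_add _ _ _
        _ ≤ 2 ^ v * (2 ^ (a * v + 1) * |x i|) :=
            mul_le_mul_of_nonneg_left (h5.trans h6) (by positivity)
        _ = 2 ^ (v + (a * v + 1)) * |x i| := by rw [pow_add 2 v, mul_assoc]
        _ ≤ _ := mul_le_mul_of_nonneg_right (pow_le_pow_right₀ one_le_two (by omega))
            (abs_nonneg _)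
    · calc (2 : ℤ) ^ (t - i) ≤ 2 ^ (2 * a * V) := pow_le_pow_right₀ one_le_two (by omega)
        _ ≤ _ := le_mul_of_one_le_right (by positivity) (hone i)
  refine ⟨hst, ?_, fun i h1 h2 => ?_, v, max s (t - v), hv, by omega, by omega, by omega, hw,
    fun i h1 h2 => ?_⟩
  · rw [pow_one]
    exact hlen s le_rfl hst.le
  · have h3 := hg i (t - i)
    rw [Nat.add_sub_cancel' h2, mul_comm a, pow_mul] at h3
    have h4 := pow_le_pow_left₀ (by positivity) (hlen i h1 h2) a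
    have h5 : |x i| ≤ 2 ^ (2 * a * V) * |x i| :=
      le_mul_of_one_le_left (abs_nonneg _) (one_le_pow₀ one_le_two)
    rw [pow_succ]
    exact h3.trans (mul_le_mul h4 h5 (abs_nonneg _) (by positivity))
  · have h3 := hg i (t - i)
    rw [Nat.add_sub_cancel' h2] at h3
    have h4 := pow_le_pow_left₀ (abs_nonneg _) h3 (a + 1 + 1)
    rw [mul_pow, ← pow_mul] at h4
    refine h4.trans (mul_le_mul_of_nonneg_right (pow_le_pow_right₀ one_le_two ?_) (by positivity))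
    have h5 : a * (t - i) ≤ a * V := Nat.mul_le_mul_left a (by omega)
    calc a * (t - i) * (a + 1 + 1) ≤ a * V * (a + 1 + 1) := Nat.mul_le_mul_right _ h5
      _ ≤ (a + 1) * (2 * a * V) := by rw [e2]; nlinarith [Nat.zero_le (a * V)]
      _ ≤ _ := Nat.mul_le_mul_left _ (Nat.le_add_left _ _)

end Pool.Agent.Lib.MP_dee342_nt.Ar
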