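import Pool.Agent.Lib.MP_dee342_nt.Ar5.Main
import Pool.Agent.Lib.MP_dee342_nt.Ar5.Word
import Pool.Agent.Lib.MP_dee342_nt.Ar5.Old

/-! Consequences of the bound for cycles cut into blocks. -/

namespace Pool.Agent.Lib.MP_dee342_nt.Ar

open Finset Function

theorem cor_abs {p L C X c Y d : ℝ} (h : p ≤ L + d + C * X) (hd : 0 ≤ d) (hX : 0 ≤ X)
    (hY : 1 ≤ Y) (hXY : X ≤ c * Y) : p ≤ L + (d + |C| * c) * Y := by
  have h1 := mul_le_mul_of_nonneg_right (le_abs_self C) hX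
  have h2 := mul_le_mul_of_nonneg_left hXY (abs_nonneg C)
  nlinarith

theorem blocks_of_per {a V K : ℕ} (ha : Odd a) (ha3 : 3 ≤ a)
    (H : ∃ C : ℝ, ∀ (V J M : ℕ) (x : ℤ) (u : ℕ → ℕ), 0 < M → u 0 = 0 → (T a)^[u M] x = x →
      (∀ i < M, PerBlock V K J (fun j => (T a)^[j] x) (u i) (u (i + 1))) →
      Real.log (minimalPeriod (T a) x) ≤ Real.log V + C * ((J + 1) * M : ℝ) ^ (27 / 28 : ℝ)) :
    ∃ C : ℝ, ∀ (J M : ℕ) (y : ℤ) (u : ℕ → ℕ), Odd y → 0 < M → u 0 = 0 → (syr a)^[u M] y = y →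
      (∀ i < M, Block a V K J (fun j => (syr a)^[j] y) (fun j => syrE a ((syr a)^[j] y))
        (u i) (u (i + 1))) →
      Real.log (minimalPeriod (T a) y) ≤ C * ((J + 1) * M : ℝ) ^ (27 / 28 : ℝ) := by
  obtain ⟨C, hC⟩ := H
  refine ⟨Real.log (a * (V + 2) : ℕ) + |C| * a, fun J M y u hy hM hu0 hk hu => ?_⟩
  have ho : ∀ i, Odd ((syr a)^[i] y) := fun i => (syr_iter ha ha3 hy i).1
  have h1 := hC (a * (V + 2)) (a * J + 1) M y
    (fun i => bb (fun j => syrE a ((syr a)^[j] y)) (u i)) hM (by simp [hu0, bb])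
    ((syr_iter ha ha3 hy (u M)).2.trans hk) fun i hi =>
      old_mid (fun i => (syr_step ha ha3 (ho i)).2.1) ho (fun i => (syr_iter ha ha3 hy i).2)
        (old_half ha ha3 hy) ha3 (fun i => by
          rw [iterate_succ_apply']
          exact (syr_step ha ha3 (ho i)).2.2.1) (hu i hi)
  have m1 : (1 : ℝ) ≤ (J + 1) * M := by exact_mod_cast Nat.mul_pos J.succ_pos hM
  have a3 : (3 : ℝ) ≤ a := by exact_mod_cast ha3
  rw [← zero_add (Real.log (a * (V + 2) : ℕ))] at h1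
  refine (cor_abs h1 (Real.log_natCast_nonneg _) (by positivity)
    (Real.one_le_rpow m1 (by norm_num)) ?_).trans_eq (zero_add _)
  refine le_trans (Real.rpow_le_rpow (by positivity) ?_ (by norm_num))
    (rpow_scale (by linarith) (by positivity))
  rw [← mul_assoc]
  refine mul_le_mul_of_nonneg_right ?_ (by positivity)
  push_cast
  linarith

theorem words_of_per {a : ℕ} (ha : Odd a) (ha3 : 3 ≤ a)
    (H : ∃ C : ℝ, ∀ (V J M : ℕ) (x : ℤ) (u : ℕ → ℕ), 0 < M → u 0 = 0 → (T a)^[u M] x = x →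
      (∀ i < M, PerBlock V (a + 1) J (fun j => (T a)^[j] x) (u i) (u (i + 1))) →
      Real.log (minimalPeriod (T a) x) ≤ Real.log V + C * ((J + 1) * M : ℝ) ^ (27 / 28 : ℝ)) :
    ∃ C : ℝ, ∀ (V M : ℕ) (x : ℤ) (u : ℕ → ℕ), 0 < M → u 0 = 0 → (T a)^[u M] x = x →
      (∀ i < M, u i < u (i + 1) ∧ ∃ v, 0 < v ∧ v ≤ V ∧
        ∀ j, u i ≤ j → j + v < u (i + 1) → (T a)^[j + v] x % 2 = (T a)^[j] x % 2) →
      Real.log (minimalPeriod (T a) x) ≤ Real.log V + C * (M : ℝ) ^ (27 / 28 : ℝ) := by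
  obtain ⟨C, hC⟩ := H
  refine ⟨Real.log (2 * a : ℕ) + |C| * 2, fun V M x u hM hu0 hk hu => ?_⟩
  have l0 := Real.log_natCast_nonneg (2 * a)
  have hV : 0 < V := by
    obtain ⟨-, v, h1, h2, -⟩ := hu 0 hM
    omega
  by_cases hne : ∀ j v, 0 < v → v ≤ V → (T a)^[j + v] x ≠ (T a)^[j] x
  · have h0 : ∀ j, (T a)^[j] x ≠ 0 := fun j c => hne j 1 one_pos hV (by
      rw [iterate_succ_apply', c]
      simp [T])
    have h1 := hC (2 * a * V) 1 M x u hM hu0 hk fun i hi => by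
      obtain ⟨k1, v, k2, k3, k4⟩ := hu i hi
      exact word_block ha ha3 _ (fun j => ((T a)^[j] x % 2).toNat)
        (fun i => Int.toNat_of_nonneg (by omega)) (fun i => by
          rw [iterate_succ_apply']
          exact T_step ha _) h0 k1 k2 k3 (fun j => hne j v k2 k3) k4
    rw [Nat.cast_mul, Real.log_mul (by positivity) (by positivity), add_comm (Real.log _)] at h1
    refine cor_abs h1 l0 (by positivity)
      (Real.one_le_rpow (by exact_mod_cast hM) (by norm_num)) ?_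
    rw [Nat.cast_one, one_add_one_eq_two]
    exact rpow_scale one_le_two (by positivity)
  · push Not at hne
    obtain ⟨j, v, k1, k2, k3⟩ := hne
    have hu' : ∀ n ≤ M, n ≤ u n := fun n => by
      induction n with
      | zero => exact fun _ => Nat.zero_le _
      | succ n ih => exact fun hn => (ih (by omega)).trans_lt (hu n hn).1
    have hper : x ∈ periodicPts (T a) := ⟨u M, hM.trans_le (hu' M le_rfl), hk⟩
    rw [add_comm, iterate_add_apply] at k3
    have k4 := (IsPeriodicPt.minimalPeriod_le k1 k3).trans k2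
    rw [minimalPeriod_apply_iterate hper] at k4
    refine le_add_of_le_of_nonneg (Real.log_le_log ?_ ?_) (by positivity)
    · exact_mod_cast minimalPeriod_pos_of_mem_periodicPts hper
    · exact_mod_cast k4

end Pool.Agent.Lib.MP_dee342_nt.Ar
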