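import Mathlib

/-! Blocks of an orbit: a part with periodic parities followed by a free part. -/

set_option autoImplicit false

namespace Pool.Agent.Lib.MP_dee342_nt

/-- The piece of `x` from `s` to `t` has at most `J (V + log₂ |x s|)` steps and no deep dip; up to
`w` the parities repeat with a period `v ≤ V`, and from `w` on the piece climbs at most
`K (w - s + V) / (K + 1)` bits above any of its points. -/
def PerBlock (V K J : ℕ) (x : ℕ → ℤ) (s t : ℕ) : Prop :=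
  s < t ∧ 2 ^ (t - s) ≤ (2 ^ V * |x s|) ^ J ∧
    (∀ i, s ≤ i → i ≤ t → |x t| ≤ (2 ^ V * |x i|) ^ K) ∧
    ∃ v w, 0 < v ∧ v ≤ V ∧ s ≤ w ∧ w ≤ t ∧ (∀ j, s ≤ j → j < w → x (j + v) % 2 = x j % 2) ∧
      ∀ i, w ≤ i → i ≤ t → |x t| ^ (K + 1) ≤ 2 ^ (K * (w - s + V)) * |x i| ^ (K + 1)

end Pool.Agent.Lib.MP_dee342_nt
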