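import Pool.Agent.Lib.MP_dee342_nt.Ar.Seq

/-! A common denominator, and the gain of the periodic parts. -/

namespace Pool.Agent.Lib.MP_dee342_nt.Ar

open Finset

/-- Induction on `n` with the stronger `Q ≤ H ^ n`: the new `Q` is `Q |q|`, the old `g j`, `g' j`
are multiplied by `|q|`, and the relation number `n` is multiplied by `Q * sign q`. -/
theorem denT {H : ℤ} (hH : 1 ≤ H) (α β y y' : ℕ → ℤ) (n : ℕ)
    (h : ∀ j < n, ∃ q g g' : ℤ, q ≠ 0 ∧ |q| ≤ H ∧ |g| ≤ H ^ 2 ∧ |g'| ≤ H ^ 2 ∧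
      α j * (q * y' j + g') = β j * (q * y j + g)) :
    ∃ (Q : ℤ) (g g' : ℕ → ℤ), 1 ≤ Q ∧ Q ≤ H ^ (n + 2) ∧ (∀ j, |g j| ≤ H ^ (n + 2)) ∧
      (∀ j, |g' j| ≤ H ^ (n + 2)) ∧ ∀ j < n, α j * (Q * y' j + g' j) = β j * (Q * y j + g j) := by
  have key : ∀ n, (∀ j < n, ∃ q g g' : ℤ, q ≠ 0 ∧ |q| ≤ H ∧ |g| ≤ H ^ 2 ∧ |g'| ≤ H ^ 2 ∧
      α j * (q * y' j + g') = β j * (q * y j + g)) →
      ∃ (Q : ℤ) (g g' : ℕ → ℤ), 1 ≤ Q ∧ Q ≤ H ^ n ∧ (∀ j, |g j| ≤ H ^ (n + 2)) ∧
        (∀ j, |g' j| ≤ H ^ (n + 2)) ∧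
        ∀ j < n, α j * (Q * y' j + g' j) = β j * (Q * y j + g j) := by
    intro n
    induction n with
    | zero =>
      exact fun _ => ⟨1, fun _ => 0, fun _ => 0, le_rfl, by simp, fun _ => by simp; positivity,
        fun _ => by simp; positivity, fun j hj => absurd hj (Nat.not_lt_zero j)⟩
    | succ n ih =>
      intro h
      obtain ⟨Q, g, g', a1, a2, a3, a4, a5⟩ := ih fun j hj => h j (by omega)
      obtain ⟨q, c, c', b1, b2, b3, b4, b5⟩ := h n (by omega)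
      have hq : 1 ≤ |q| := Int.one_le_abs b1
      have hs : |q.sign| = 1 := Int.abs_sign_of_ne_zero b1
      have e : ∀ (c : ℤ) (g : ℕ → ℤ), |c| ≤ H ^ 2 → (∀ j, |g j| ≤ H ^ (n + 2)) → ∀ j,
          |if j = n then Q * q.sign * c else |q| * g j| ≤ H ^ (n + 1 + 2) := fun c g h1 h2 j => by
        split_ifs
        · rw [abs_mul, abs_mul, hs, mul_one, abs_of_pos (by omega : 0 < Q)]
          refine (mul_le_mul a2 h1 (abs_nonneg _) (by positivity)).trans ?_
          rw [← pow_add]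
          exact pow_le_pow_right₀ hH (by omega)
        · rw [abs_mul, abs_abs, show n + 1 + 2 = n + 2 + 1 by ring, pow_succ']
          exact mul_le_mul b2 (h2 j) (abs_nonneg _) (by omega)
      refine ⟨Q * |q|, fun j => if j = n then Q * q.sign * c else |q| * g j,
        fun j => if j = n then Q * q.sign * c' else |q| * g' j,
        one_le_mul_of_one_le_of_one_le a1 hq, ?_, e c g b3 a3, e c' g' b4 a4, fun j hj => ?_⟩
      · rw [pow_succ]
        exact mul_le_mul a2 b2 (abs_nonneg _) (by positivity)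
      · beta_reduce
        split_ifs with e1
        · subst e1
          rw [← Int.sign_mul_self_eq_abs]
          linear_combination Q * q.sign * b5
        · linear_combination |q| * a5 j (by omega)
  obtain ⟨Q, g, g', a1, a2, a3⟩ := key n h
  exact ⟨Q, g, g', a1, a2.trans (pow_le_pow_right₀ hH (by omega)), a3⟩

/-- Induction on `n`, `(K + 1) (K m / (K + 1)) ≤ K m`. Twin: `gainB` in `Ar4/Gain.lean`. -/
theorem gainT (K V : ℕ) {u w : ℕ → ℕ} (hu0 : u 0 = 0)
    (h1 : ∀ i, u i ≤ w i) (h2 : ∀ i, w i ≤ u (i + 1)) (n : ℕ) :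
    (K + 1) * ∑ j ∈ range n, (u (j + 1) - w j + (K * (w j - u j + V) / (K + 1) + 1)) +
      ∑ j ∈ range n, (w j - u j) ≤ (K + 1) * (u n + n * (V + 1)) := by
  induction n with
  | zero => simp
  | succ n ih =>
    rw [sum_range_succ, sum_range_succ]
    obtain ⟨a, ha⟩ := Nat.exists_eq_add_of_le (h1 n)
    obtain ⟨b, hb⟩ := Nat.exists_eq_add_of_le (h2 n)
    have a1 := Nat.mul_div_le (K * (a + V)) (K + 1)
    rw [hb, ha, Nat.add_sub_cancel_left, Nat.add_sub_cancel_left]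
    generalize K * (a + V) / (K + 1) = D at *
    nlinarith

end Pool.Agent.Lib.MP_dee342_nt.Ar
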