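import Pool.Agent.Lib.MP_dee342_nt.Ar.Seq

/-! Odd steps against halvings in a chain of blocks. -/

namespace Pool.Agent.Lib.MP_dee342_nt.Ar

open Finset

theorem t5grow_le (f : ℕ → ℕ) (hf : ∀ i, f i ≤ 1) (p l : ℕ) : bb f (p + l) ≤ bb f p + l := by
  induction l with
  | zero => exact le_rfl
  | succ l ih =>
    rw [← add_assoc, bb_succ]
    have := hf (p + l)
    omega

/-- Induction on `n`. In block `j`, with `l = w j - u j`: `bb f (w j) ≤ bb f (u j) + l`, `hp` gives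
`a ^ (bb f (u (j + 1)) - bb f (w j)) ≤ 3 * 2 ^ (u (j + 1) - u j + V + 1)`, and
`3 * 2 ^ (V + 1) ≤ a ^ (V + 2)`. Twin: `size2B` in `Ar4/Size.lean`. -/
theorem size2T {a V : ℕ} (ha3 : 3 ≤ a) (f : ℕ → ℕ) (hf : ∀ i, f i ≤ 1) {u w : ℕ → ℕ}
    (hu0 : u 0 = 0) (h1 : ∀ i, u i ≤ w i) (h2 : ∀ i, w i ≤ u (i + 1)) (n : ℕ)
    (hp : ∀ j < n, a ^ (bb f (u (j + 1)) - bb f (w j)) * 2 ^ w j ≤
      3 * 2 ^ (u (j + 1) + (w j - u j + V + 1))) :
    a ^ bb f (u n) ≤ 2 ^ u n * a ^ (∑ j ∈ range n, (w j - u j) + (V + 2) * n) := by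
  induction n with
  | zero => simp [hu0, bb]
  | succ n ih =>
    have ih' := ih fun j hj => hp j (hj.trans n.lt_succ_self)
    have h3 := hp n n.lt_succ_self
    obtain ⟨l, hl⟩ := Nat.exists_eq_add_of_le (h1 n)
    obtain ⟨r, hr⟩ := Nat.exists_eq_add_of_le (h2 n)
    obtain ⟨D, hD⟩ := Nat.exists_eq_add_of_le (bb_mono f (h2 n))
    have h4 : bb f (w n) ≤ bb f (u n) + l := hl ▸ t5grow_le f hf (u n) l
    have h5 : w n - u n = l := by omega
    rw [hD, Nat.add_sub_cancel_left, h5, hr, add_assoc (w n), pow_add 2 (w n), mul_left_comm,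
      mul_comm] at h3
    have h6 := Nat.le_of_mul_le_mul_left h3 (by positivity)
    have h7 : 3 * 2 ^ (V + 1) ≤ a ^ (V + 2) := by
      rw [pow_succ' a]
      exact Nat.mul_le_mul ha3 (Nat.pow_le_pow_left (by omega) _)
    have h8 : a ^ D ≤ 2 ^ (l + r) * a ^ (V + 2) := by
      refine h6.trans (le_trans (le_of_eq ?_) (Nat.mul_le_mul_left _ h7))
      ring
    rw [sum_range_succ, h5, hD, hr, hl]
    calc a ^ (bb f (u n + l) + D) ≤ a ^ (bb f (u n) + l + D) :=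
          Nat.pow_le_pow_right (by omega) (by rw [← hl]; omega)
      _ = a ^ bb f (u n) * a ^ l * a ^ D := by rw [pow_add, pow_add]
      _ ≤ 2 ^ u n * a ^ (∑ j ∈ range n, (w j - u j) + (V + 2) * n) * a ^ l *
          (2 ^ (l + r) * a ^ (V + 2)) := Nat.mul_le_mul (Nat.mul_le_mul_right _ ih') h8
      _ = _ := by ring

end Pool.Agent.Lib.MP_dee342_nt.Ar
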