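import Pool.Agent.Lib.MP_dee342_nt.Ar.Win0

/-! Numerical lemmas. -/

namespace Pool.Agent.Lib.MP_dee342_nt.Ar

open Finset

/-- Copy of `win0_gen` with `Q ≤ 2 ^ q`, `32 R ^ 3 q ≤ l` in place of
`Q ≤ 2 ^ R` (so `q ≤ l / 4`, and `q ≤ x` where `c l = x * 32 R ^ 3`). -/
theorem win0T {c Q q R l : ℕ} (hc : 1 ≤ c) (hr : 3 * c ≤ R) (hR : 100 ≤ R) (hQ : Q ≤ 2 ^ q)
    (hq : 32 * R ^ 3 * q ≤ l) (hl : R ^ 20 ≤ l) : c * l ≤ R * (l / 2) ∧ c * l ≤ 2 ^ l ∧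
      6 * (c * l * Q) * 2 ^ (l / 2) ≤ 2 ^ l ∧
      ((c * l * Q : ℕ) : ℝ) ≤ Real.exp ((c * l : ℕ) / (16 * (R : ℝ) ^ 3)) := by
  have h0 : 2048 * R ^ 6 ≤ l := by
    refine le_trans ?_ hl
    have : 2048 ≤ R ^ 14 := le_trans (by norm_num) (Nat.pow_le_pow_left hR 14)
    calc 2048 * R ^ 6 ≤ R ^ 14 * R ^ 6 := Nat.mul_le_mul_right _ this
      _ = R ^ 20 := by ring
  have h1 : R ≤ R ^ 6 := Nat.le_self_pow (by norm_num) R
  have h2 : l ^ 3 ≤ 2 ^ (l / 4) := by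
    refine le_trans ?_ (win0_cube (l / 4) (by omega))
    calc l ^ 3 ≤ (5 * (l / 4)) ^ 3 := Nat.pow_le_pow_left (by omega) 3
      _ = _ := by ring
  have h3 : l * l ≤ l ^ 3 := by
    calc l * l = l ^ 2 := by ring
      _ ≤ l ^ 3 := Nat.pow_le_pow_right (by omega) (by norm_num)
  have hq1 : 32 * q ≤ l := by
    refine le_trans (Nat.mul_le_mul_right _ ?_) hq
    exact Nat.le_mul_of_pos_right _ (pow_pos (by omega) 3)
  obtain ⟨g1, g2, -⟩ := win0_gen (Q := 0) hc hr hR (Nat.zero_le _) hl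
  refine ⟨g1, g2, ?_, ?_⟩
  · calc 6 * (c * l * Q) * 2 ^ (l / 2) = 6 * c * l * Q * 2 ^ (l / 2) := by ring
      _ ≤ 2 ^ (l / 4) * 2 ^ (l / 4) * 2 ^ (l / 2) :=
        Nat.mul_le_mul_right _ (Nat.mul_le_mul
          ((Nat.mul_le_mul_right _ (by omega)).trans (h3.trans h2))
          (hQ.trans (Nat.pow_le_pow_right two_pos (by omega))))
      _ ≤ _ := by
        rw [← pow_add, ← pow_add]
        exact Nat.pow_le_pow_right two_pos (by omega)
  · have h4 : (2048 : ℝ) * R ^ 6 ≤ (c * l : ℕ) := by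
      exact_mod_cast h0.trans (Nat.le_mul_of_pos_left l hc)
    have h4' : (32 : ℝ) * R ^ 3 * q ≤ (c * l : ℕ) := by
      exact_mod_cast hq.trans (Nat.le_mul_of_pos_left l hc)
    have h5 : (100 : ℝ) ≤ R := by exact_mod_cast hR
    rw [Nat.cast_mul]
    generalize ((c * l : ℕ) : ℝ) = N at h4 h4'
    have hp : (0 : ℝ) < R ^ 3 := by positivity
    obtain ⟨x, rfl⟩ : ∃ x, N = x * (32 * R ^ 3) := ⟨N / (32 * R ^ 3), by field_simp⟩
    have h6 : 64 * (R : ℝ) ^ 3 ≤ x := le_of_mul_le_mul_right (by nlinarith) hp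
    have h7 : (q : ℝ) ≤ x := le_of_mul_le_mul_right (by linarith) hp
    have h8 : x * (32 * R ^ 3) ≤ Real.exp x := by
      have := Real.quadratic_le_exp_of_nonneg (x := x) (by linarith)
      nlinarith
    have h9 : (Q : ℝ) ≤ Real.exp x := by
      calc (Q : ℝ) ≤ 2 ^ q := by exact_mod_cast hQ
        _ ≤ Real.exp 1 ^ q := pow_le_pow_left₀ zero_le_two
          (by linarith [Real.add_one_le_exp 1]) q
        _ = Real.exp q := by rw [← Real.exp_nat_mul, mul_one]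
        _ ≤ _ := Real.exp_le_exp.2 h7
    rw [show x * (32 * (R : ℝ) ^ 3) / (16 * R ^ 3) = x + x by field_simp; ring, Real.exp_add]
    exact mul_le_mul h8 h9 (Nat.cast_nonneg _) (Real.exp_pos _).le

end Pool.Agent.Lib.MP_dee342_nt.Ar
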