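import Pool.Agent.Lib.MP_dee342_nt.Ar.Seq

/-! The constant of the free part of a block. -/

namespace Pool.Agent.Lib.MP_dee342_nt.Ar

open Finset

/-- First `|2 ^ t x t - a ^ (bb f t - bb f w) 2 ^ w x w| μ ≤ (t - w) X` as in `pieceX`
(`Ar4/Piece.lean`; induction on `k ≤ t - w` with the factor `a ^ (bb f t - bb f (w + k))`, the step
adds `f (w + k) 2 ^ (w + k)` and uses `hp (w + k + 1)`, `bb_succ`, `bb_mono`). The terms with `g`
and `g'` are at most `P X` by `hp t` and `hp w`. -/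
theorem pieceT {a : ℕ} (x : ℕ → ℤ) (f : ℕ → ℕ) (hf : ∀ i, f i ≤ 1)
    (h : ∀ i, 2 * x (i + 1) = a ^ f i * x i + f i) {μ X Q P g g' : ℤ} (hμ : 0 ≤ μ) (hQ : |Q| ≤ P)
    (hg : |g| ≤ P) (hg' : |g'| ≤ P) {w t : ℕ} (hwt : w ≤ t)
    (hp : ∀ i, w ≤ i → i ≤ t → (a : ℤ) ^ (bb f t - bb f i) * 2 ^ i * μ ≤ X) :
    |2 ^ (t - w) * (Q * x t + g) - a ^ (bb f t - bb f w) * (Q * x w + g')| * 2 ^ w * μ ≤
      ((t - w : ℕ) + 2) * P * X := by
  let Z : ℕ → ℤ := fun i => (a : ℤ) ^ (bb f t - bb f i) * 2 ^ i * x i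
  have h1 : ∀ k, w + k ≤ t → |Z (w + k) - Z w| * μ ≤ k * X := fun k hk => by
    induction k with
    | zero => simp
    | succ k ih =>
      have h2 : bb f t - bb f (w + k) = bb f t - bb f (w + k + 1) + f (w + k) := by
        have h3 := bb_mono f (show w + k + 1 ≤ t by omega)
        rw [bb_succ] at h3 ⊢
        omega
      have h3 : Z (w + (k + 1)) - Z w = (Z (w + k) - Z w) +
          (a : ℤ) ^ (bb f t - bb f (w + k + 1)) * 2 ^ (w + k) * f (w + k) := by
        simp only [Z, ← add_assoc]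
        rw [h2, pow_add (a : ℤ), pow_succ]
        linear_combination (a : ℤ) ^ (bb f t - bb f (w + k + 1)) * 2 ^ (w + k) * h (w + k)
      have h4 : |(a : ℤ) ^ (bb f t - bb f (w + k + 1)) * 2 ^ (w + k) * f (w + k)| ≤
          (a : ℤ) ^ (bb f t - bb f (w + k + 1)) * 2 ^ (w + k + 1) := by
        have h5 : (f (w + k) : ℤ) ≤ 2 := by exact_mod_cast (hf _).trans one_le_two
        rw [abs_of_nonneg (by positivity), pow_succ, ← mul_assoc]
        gcongr
      have h5 := mul_le_mul_of_nonneg_right ((abs_add_le _ _).trans (add_le_add le_rfl h4) :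
        |Z (w + k) - Z w + _| ≤ _) hμ
      rw [h3]
      push_cast
      linarith [ih (by omega), hp (w + k + 1) (by omega) (by omega)]
  obtain ⟨k, rfl⟩ := Nat.exists_eq_add_of_le hwt
  have h2 := h1 k le_rfl
  have h3 := hp (w + k) hwt le_rfl
  have h4 := hp w le_rfl hwt
  rw [Nat.sub_self, pow_zero, one_mul] at h3
  have hP : 0 ≤ P := (abs_nonneg _).trans hQ
  have h5 : |2 ^ k * (Q * x (w + k) + g) - a ^ (bb f (w + k) - bb f w) * (Q * x w + g')| * 2 ^ w =
      |Q * (Z (w + k) - Z w) + g * 2 ^ (w + k) - g' * (a ^ (bb f (w + k) - bb f w) * 2 ^ w)| := by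
    rw [← abs_of_pos (show (0 : ℤ) < 2 ^ w by positivity), ← abs_mul,
      abs_of_pos (show (0 : ℤ) < 2 ^ w by positivity)]
    simp only [Z, Nat.sub_self]
    congr 1
    ring
  have h6 : |Q * (Z (w + k) - Z w) + g * 2 ^ (w + k) -
      g' * (a ^ (bb f (w + k) - bb f w) * 2 ^ w)| ≤ P * |Z (w + k) - Z w| + P * 2 ^ (w + k) +
        P * (a ^ (bb f (w + k) - bb f w) * 2 ^ w) := by
    refine (abs_sub _ _).trans (add_le_add ((abs_add_le _ _).trans (add_le_add ?_ ?_)) ?_)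
    · rw [abs_mul]
      gcongr
    · rw [abs_mul, abs_of_nonneg (show (0 : ℤ) ≤ 2 ^ (w + k) by positivity)]
      gcongr
    · rw [abs_mul g', abs_of_nonneg
        (show (0 : ℤ) ≤ a ^ (bb f (w + k) - bb f w) * 2 ^ w by positivity)]
      gcongr
  rw [Nat.add_sub_cancel_left, h5]
  linarith [mul_le_mul_of_nonneg_right h6 hμ, mul_le_mul_of_nonneg_left h2 hP,
    mul_le_mul_of_nonneg_left h3 hP, mul_le_mul_of_nonneg_left h4 hP]

end Pool.Agent.Lib.MP_dee342_nt.Ar
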