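import Pool.Agent.Lib.MP_dee342_nt.Ar.Seq

/-! The telescoped relation with one term for each block. -/

namespace Pool.Agent.Lib.MP_dee342_nt.Ar

open Finset

/-- Induction on `n`; write `w n = u n + p`, `u (n + 1) = w n + p'` and likewise for `bb f`
(`bb_mono`). Twin: `rep4` in `Ar4/Rep.lean`. -/
theorem repT {a : ℕ} (f : ℕ → ℕ) (A B : ℕ → ℤ) {u w : ℕ → ℕ} (hu0 : u 0 = 0)
    (h1 : ∀ i, u i ≤ w i) (h2 : ∀ i, w i ≤ u (i + 1)) (n : ℕ)
    (hr : ∀ j < n, 2 ^ (w j - u j) * B j = a ^ (bb f (w j) - bb f (u j)) * A j) :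
    2 ^ u n * A n = a ^ bb f (u n) * A 0 + ∑ j ∈ range n,
      (2 ^ (u (j + 1) - w j) * A (j + 1) - a ^ (bb f (u (j + 1)) - bb f (w j)) * B j) *
        (a ^ (bb f (u n) - bb f (u (j + 1))) * 2 ^ w j) := by
  have hm : Monotone u := monotone_nat_of_le_succ fun i => (h1 i).trans (h2 i)
  induction n with
  | zero => simp [hu0, bb]
  | succ n ih =>
    have k1 := bb_mono f (h1 n)
    have k2 := bb_mono f (h2 n)
    have h3 := hr n n.lt_succ_self
    have h4 : ∑ j ∈ range n,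
        (2 ^ (u (j + 1) - w j) * A (j + 1) - a ^ (bb f (u (j + 1)) - bb f (w j)) * B j) *
          ((a : ℤ) ^ (bb f (u (n + 1)) - bb f (u (j + 1))) * 2 ^ w j) =
        a ^ (bb f (u (n + 1)) - bb f (w n)) * a ^ (bb f (w n) - bb f (u n)) * ∑ j ∈ range n,
          (2 ^ (u (j + 1) - w j) * A (j + 1) - a ^ (bb f (u (j + 1)) - bb f (w j)) * B j) *
            ((a : ℤ) ^ (bb f (u n) - bb f (u (j + 1))) * 2 ^ w j) := by
      rw [mul_sum]
      refine sum_congr rfl fun j hj => ?_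
      have h5 : bb f (u (j + 1)) ≤ bb f (u n) := bb_mono f (hm (mem_range.1 hj))
      rw [show bb f (u (n + 1)) - bb f (u (j + 1)) = bb f (u (n + 1)) - bb f (w n) +
        (bb f (w n) - bb f (u n)) + (bb f (u n) - bb f (u (j + 1))) by omega, pow_add, pow_add]
      ring
    have h5 : (2 : ℤ) ^ u (n + 1) = 2 ^ (u (n + 1) - w n) * 2 ^ w n := by
      rw [← pow_add, Nat.sub_add_cancel (h2 n)]
    have h6 : (a : ℤ) ^ bb f (u (n + 1)) = a ^ (bb f (u (n + 1)) - bb f (w n)) *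
        a ^ (bb f (w n) - bb f (u n)) * a ^ bb f (u n) := by
      rw [← pow_add, ← pow_add]
      congr 1
      omega
    have h7 : (2 : ℤ) ^ w n = 2 ^ (w n - u n) * 2 ^ u n := by
      rw [← pow_add, Nat.sub_add_cancel (h1 n)]
    rw [sum_range_succ, h4, Nat.sub_self, pow_zero]
    linear_combination A (n + 1) * h5 - A 0 * h6 +
      (a : ℤ) ^ (bb f (u (n + 1)) - bb f (w n)) * B n * h7 +
      (a : ℤ) ^ (bb f (u (n + 1)) - bb f (w n)) * 2 ^ u n * h3 +
      (a : ℤ) ^ (bb f (u (n + 1)) - bb f (w n)) * a ^ (bb f (w n) - bb f (u n)) *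
        ih fun j hj => hr j (hj.trans n.lt_succ_self)

end Pool.Agent.Lib.MP_dee342_nt.Ar
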