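import Pool.Agent.Lib.MP_dee342_nt.Ar5.Size

/-! Odd steps against halvings in the free part of a block. -/

namespace Pool.Agent.Lib.MP_dee342_nt.Ar

open Finset

/-- Twin of `rise_pow` in `Ar4/Rise.lean`: with `ρ = K * l / (K + 1) + 1`, `K l ≤ (K + 1) ρ`, so
`|x t| ≤ 2 ^ ρ |x i|`; `sizeT3` for the sequences shifted by `i` with `n = t - i`, `bb_add`; cancel
`|x i| > 0`. -/
theorem riseT {a K l : ℕ} (x : ℕ → ℤ) (f : ℕ → ℕ) (hf : ∀ i, f i ≤ 1)
    (h : ∀ i, 2 * x (i + 1) = a ^ f i * x i + f i) {w t : ℕ}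
    (h1 : ∀ i, w ≤ i → i ≤ t → ((t - w : ℕ) : ℤ) < |x i|)
    (h2 : ∀ i, w ≤ i → i ≤ t → |x t| ^ (K + 1) ≤ 2 ^ (K * l) * |x i| ^ (K + 1)) :
    ∀ i, w ≤ i → i ≤ t →
      a ^ (bb f t - bb f i) * 2 ^ i ≤ 3 * 2 ^ (t + (K * l / (K + 1) + 1)) := by
  intro i hw hi
  have hρ : K * l ≤ (K * l / (K + 1) + 1) * (K + 1) := by
    rw [mul_comm _ (K + 1)]
    exact (Nat.lt_mul_div_succ _ K.succ_pos).le
  generalize K * l / (K + 1) + 1 = ρ at hρ ⊢
  have h3 : |x t| ≤ 2 ^ ρ * |x i| := by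
    refine le_of_pow_le_pow_left₀ K.succ_ne_zero (by positivity) ((h2 i hw hi).trans ?_)
    rw [mul_pow, ← pow_mul]
    exact mul_le_mul_of_nonneg_right (pow_le_pow_right₀ one_le_two hρ) (by positivity)
  have h0 : 0 < |x i| := lt_of_le_of_lt (Int.natCast_nonneg _) (h1 i hw hi)
  obtain ⟨n, rfl⟩ := Nat.exists_eq_add_of_le hi
  have h4 := sizeT3 (a := a) (fun j => x (i + j)) (fun j => f (i + j)) (fun j => hf _)
    (fun j => h (i + j)) (n := n) (fun j hj => by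
      have := h1 (i + j) (by omega) (by omega)
      omega) n le_rfl
  rw [bb_add, Nat.add_sub_cancel_left]
  simp only [add_zero] at h4
  have h5 : (a : ℤ) ^ bb (fun j => f (i + j)) n ≤ 3 * 2 ^ n * 2 ^ ρ := by
    refine le_of_mul_le_mul_right (h4.trans ?_) h0
    rw [mul_assoc _ (2 ^ ρ)]
    exact mul_le_mul_of_nonneg_left h3 (by positivity)
  have h6 : a ^ bb (fun j => f (i + j)) n ≤ 3 * 2 ^ n * 2 ^ ρ := by exact_mod_cast h5
  refine (Nat.mul_le_mul_right _ h6).trans_eq ?_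
  rw [pow_add, pow_add]
  ring

end Pool.Agent.Lib.MP_dee342_nt.Ar
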