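import Pool.Agent.Lib.MP_dee342_nt.Ar.RepV

/-! The relation along a part with periodic parities. -/

namespace Pool.Agent.Lib.MP_dee342_nt.Ar

open Finset

theorem t5run_r {a : ℕ} (ha3 : 3 ≤ a) (x : ℕ → ℤ) (f : ℕ → ℕ) (hf : ∀ i, f i ≤ 1)
    (h : ∀ i, 2 * x (i + 1) = a ^ f i * x i + f i) (i v : ℕ) :
    ∃ r : ℤ, 0 ≤ r ∧ r ≤ v * a ^ v ∧
      2 ^ v * x (i + v) = a ^ (∑ j ∈ range v, f (i + j)) * x i + r := by
  have ha : (3 : ℤ) ≤ a := by exact_mod_cast ha3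
  induction v with
  | zero => exact ⟨0, le_rfl, by simp, by simp⟩
  | succ v ih =>
    obtain ⟨r, h0, h1, h2⟩ := ih
    have h3 : (2 : ℤ) ^ v ≤ a ^ v := pow_le_pow_left₀ (by norm_num) (by omega) v
    have h4 : (0 : ℤ) < a ^ v := pow_pos (by omega) v
    have h5 := h (i + v)
    refine ⟨a ^ f (i + v) * r + f (i + v) * 2 ^ v, by positivity, ?_, ?_⟩
    · have h6 : (a : ℤ) ^ f (i + v) ≤ a := by
        have := pow_le_pow_right₀ (a := (a : ℤ)) (by omega) (hf (i + v))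
        rwa [pow_one] at this
      have h7 : (f (i + v) : ℤ) ≤ 1 := by exact_mod_cast hf (i + v)
      have h8 : (a : ℤ) ^ f (i + v) * r ≤ a * (v * a ^ v) :=
        mul_le_mul h6 h1 h0 (by omega)
      have h9 : (f (i + v) : ℤ) * 2 ^ v ≤ 1 * a ^ v :=
        mul_le_mul h7 h3 (by positivity) (by norm_num)
      have h10 : 1 * (a : ℤ) ^ v ≤ a * a ^ v := mul_le_mul_of_nonneg_right (by omega) h4.le
      push_cast
      rw [pow_succ]
      linarith
    · rw [sum_range_succ, pow_add, pow_succ, ← add_assoc]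
      linear_combination (2 : ℤ) ^ v * h5 + (a : ℤ) ^ f (i + v) * h2

theorem t5run_sum (f : ℕ → ℕ) {s w v : ℕ} (hper : ∀ j, s ≤ j → j < w → f (j + v) = f j) (k : ℕ)
    (hk : s + k ≤ w) : ∑ j ∈ range v, f (s + k + j) = ∑ j ∈ range v, f (s + j) := by
  induction k with
  | zero => rfl
  | succ k ih =>
    have h1 := sum_range_succ (fun j => f (s + k + j)) v
    have h2 := sum_range_succ' (fun j => f (s + k + j)) v
    have h3 := hper (s + k) (by omega) (by omega)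
    have h4 : ∑ j ∈ range v, f (s + (k + 1) + j) = ∑ j ∈ range v, f (s + k + (j + 1)) :=
      sum_congr rfl fun j _ => congrArg f (by omega)
    have h5 := ih (by omega)
    rw [add_zero] at h2
    omega

theorem t5run_diff {a : ℕ} (x : ℕ → ℤ) (f : ℕ → ℕ)
    (h : ∀ i, 2 * x (i + 1) = a ^ f i * x i + f i) {s w v : ℕ}
    (hper : ∀ j, s ≤ j → j < w → f (j + v) = f j) (k : ℕ) (hk : s + k ≤ w) :
    2 ^ k * (x (s + k + v) - x (s + k)) = a ^ (bb f (s + k) - bb f s) * (x (s + v) - x s) := by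
  induction k with
  | zero => simp
  | succ k ih =>
    have h1 := h (s + k + v)
    have h2 := h (s + k)
    have h3 := ih (by omega)
    have h4 : bb f s ≤ bb f (s + k) := bb_mono f (by omega)
    have h5 : bb f (s + (k + 1)) - bb f s = bb f (s + k) - bb f s + f (s + k) := by
      rw [← add_assoc, bb_succ]; omega
    rw [hper (s + k) (by omega) (by omega)] at h1
    rw [h5, pow_add, pow_succ, show s + (k + 1) + v = s + k + v + 1 by omega, ← add_assoc]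
    linear_combination (2 : ℤ) ^ k * h1 - (2 : ℤ) ^ k * h2 + (a : ℤ) ^ f (s + k) * h3

/-- Let `S i = ∑ j ∈ range v, f (i + j) ≤ v`; `S i = S s` on `[s, w]` (`sum_shift`). Take
`q = a ^ S s - 2 ^ v` (odd, both terms in `[1, a ^ V]`), `r i = 2 ^ v x (i + v) - a ^ S i x i`,
`|r i| ≤ v a ^ v ≤ a ^ (2 V)` (induction on `v`: `r` becomes `a ^ f r + f 2 ^ v`), `g = r s`,
`g' = r w`. Then `q x i + r i = 2 ^ v (x (i + v) - x i)` for `i = s, w`, and
`2 ^ k (x (s + k + v) - x (s + k)) = a ^ (bb f (s + k) - bb f s) (x (s + v) - x s)` by induction on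
`k ≤ w - s`. Twin: `repV`, `word_const` in `Ar/RepV.lean`. -/
theorem runT {a : ℕ} (ha : Odd a) (ha3 : 3 ≤ a) (x : ℕ → ℤ) (f : ℕ → ℕ) (hf : ∀ i, f i ≤ 1)
    (h : ∀ i, 2 * x (i + 1) = a ^ f i * x i + f i) {s w v V : ℕ} (hsw : s ≤ w) (hv : 0 < v)
    (hV : v ≤ V) (hper : ∀ j, s ≤ j → j < w → f (j + v) = f j) :
    ∃ q g g' : ℤ, q ≠ 0 ∧ |q| ≤ a ^ V ∧ |g| ≤ (a ^ V) ^ 2 ∧ |g'| ≤ (a ^ V) ^ 2 ∧
      2 ^ (w - s) * (q * x w + g') = a ^ (bb f w - bb f s) * (q * x s + g) := by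
  have ha1 : (3 : ℤ) ≤ a := by exact_mod_cast ha3
  obtain ⟨k, rfl⟩ := Nat.exists_eq_add_of_le hsw
  obtain ⟨g, g0, g1, g2⟩ := t5run_r ha3 x f hf h s v
  obtain ⟨g', g0', g1', g2'⟩ := t5run_r ha3 x f hf h (s + k) v
  rw [t5run_sum f hper k le_rfl] at g2'
  have hd := t5run_diff x f h hper k le_rfl
  have hS : ∑ j ∈ range v, f (s + j) ≤ v := by
    have := sum_le_card_nsmul (range v) (fun j => f (s + j)) 1 fun j _ => hf _
    simpa using this
  generalize ∑ j ∈ range v, f (s + j) = S at g2 g2' hS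
  have hvV : (a : ℤ) ^ v ≤ a ^ V := pow_le_pow_right₀ (by omega) hV
  have hSV : (a : ℤ) ^ S ≤ a ^ V := pow_le_pow_right₀ (by omega) (hS.trans hV)
  have h2 : (2 : ℤ) ^ v ≤ a ^ v := pow_le_pow_left₀ (by norm_num) (by omega) v
  have hv2 : (v : ℤ) ≤ 2 ^ v := by exact_mod_cast (Nat.lt_two_pow_self (n := v)).le
  have hS0 : (0 : ℤ) < a ^ S := pow_pos (by omega) S
  have h20 : (0 : ℤ) < 2 ^ v := by positivity
  have hb : (v : ℤ) * a ^ v ≤ (a ^ V) ^ 2 := by
    rw [sq]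
    exact mul_le_mul (by omega) hvV (by positivity) (by positivity)
  refine ⟨a ^ S - 2 ^ v, g, g', fun h0 => ?_, abs_le.2 ⟨by omega, by omega⟩,
    by rw [abs_of_nonneg g0]; omega, by rw [abs_of_nonneg g0']; omega, ?_⟩
  · have h3 : Odd ((a : ℤ) ^ S) := (ha.natCast (R := ℤ)).pow
    rw [sub_eq_zero.1 h0] at h3
    exact Int.not_even_iff_odd.2 h3 ((Int.even_pow' hv.ne').2 even_two)
  · rw [Nat.add_sub_cancel_left]
    linear_combination (2 : ℤ) ^ v * hd - (2 : ℤ) ^ k * g2' +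
      (a : ℤ) ^ (bb f (s + k) - bb f s) * g2

end Pool.Agent.Lib.MP_dee342_nt.Ar
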