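import Pool.Agent.Lib.MP_dee342_nt.Ar4.Win
import Pool.Agent.Lib.MP_dee342_nt.Ar5.Rise
import Pool.Agent.Lib.MP_dee342_nt.Ar5.Piece
import Pool.Agent.Lib.MP_dee342_nt.Ar5.Run
import Pool.Agent.Lib.MP_dee342_nt.Ar5.Den
import Pool.Agent.Lib.MP_dee342_nt.Ar5.Rep
import Pool.Agent.Lib.MP_dee342_nt.Ar5.Grow
import Pool.Agent.Lib.MP_dee342_nt.Ar5.Bas
import Pool.Agent.Lib.MP_dee342_nt.Ar5.Num

/-! A climb with few blocks gives a weighted window. -/

namespace Pool.Agent.Lib.MP_dee342_nt.Ar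

open Finset

theorem winT_num {a k A S l n V : ℕ} (hk : 1 ≤ k) (hl : 1 ≤ l) (hn : n ≤ l) (hV : n * V ≤ l)
    (hA : a * (k * (2 * k ^ 2 + 4)) + 3 * a + 2 * k ^ 2 + 2 ≤ A)
    (h : 4 * A * (k * (2 * l)) ≤ 2 + a * (S + (V + 2) * n) + k * (k * (2 * l))) :
    k * (k * (k * (2 * l)) + 1 + l / 2 + n * (V + 1)) ≤ S := by
  by_contra hc
  have k1 : k * (k * (k * (2 * l)) + 1 + l / 2 + n * (V + 1)) ≤ k * (2 * k ^ 2 + 4) * l := by
    rw [mul_assoc]
    refine Nat.mul_le_mul_left _ ?_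
    have : (2 * k ^ 2 + 4) * l = k * (k * (2 * l)) + 4 * l := by ring
    have : n * (V + 1) = n * V + n := by ring
    omega
  have k2 : a * S ≤ a * (k * (2 * k ^ 2 + 4) * l) := Nat.mul_le_mul_left _ (by omega)
  have k3 := Nat.mul_le_mul_right l hA
  have k4 : A * l ≤ A * (k * l) := Nat.mul_le_mul_left _ (Nat.le_mul_of_pos_left _ hk)
  have k5 : a * ((V + 2) * n) ≤ a * (3 * l) := Nat.mul_le_mul_left _ (by nlinarith)
  have k6 : (a * (k * (2 * k ^ 2 + 4)) + 3 * a + 2 * k ^ 2 + 2) * l =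
      a * (k * (2 * k ^ 2 + 4) * l) + a * (3 * l) + k * (k * (2 * l)) + 2 * l := by ring
  have k7 : a * (S + (V + 2) * n) = a * S + a * ((V + 2) * n) := by ring
  have k8 : 4 * A * (k * (2 * l)) = 8 * (A * (k * l)) := by ring
  omega

theorem winT_bb {f : ℕ → ℕ} (hf : ∀ i, f i ≤ 1) (n : ℕ) : bb f n ≤ n := by
  induction n with
  | zero => simp [bb]
  | succ n ih =>
    have := hf n
    rw [bb_succ]
    omega

theorem winT_low {V K l : ℕ} {z X : ℤ} (hX : 0 ≤ X) (hV : V ≤ l) (hl : 1 ≤ l)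
    (h1 : 2 ^ ((K + 1) * (2 * l)) ≤ z) (h2 : z ≤ 2 ^ V * X ∨ z ≤ 2 ^ V * (2 ^ V * X) ^ K) :
    2 ^ l ≤ X := by
  by_contra hc
  have k1 : (2 : ℤ) ^ V ≤ 2 ^ l := pow_le_pow_right₀ one_le_two hV
  have k2 : 2 ^ V * X < 2 ^ (2 * l) := by
    rw [two_mul, pow_add]
    exact mul_lt_mul' k1 (not_le.1 hc) hX (by positivity)
  rcases h2 with h2 | h2
  · have k3 : (2 : ℤ) ^ (2 * l) ≤ 2 ^ ((K + 1) * (2 * l)) :=
      pow_le_pow_right₀ one_le_two (Nat.le_mul_of_pos_left _ K.succ_pos)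
    omega
  · have k3 : (2 ^ V * X) ^ K ≤ (2 ^ (2 * l)) ^ K := pow_le_pow_left₀ (by positivity) k2.le K
    have k4 : (2 : ℤ) ^ V < 2 ^ (2 * l) := pow_lt_pow_right₀ one_lt_two (by omega)
    have k5 := (mul_le_mul_of_nonneg_left k3 (by positivity : (0 : ℤ) ≤ 2 ^ V)).trans_lt
      (mul_lt_mul_of_pos_right k4 (by positivity))
    rw [← pow_succ', ← pow_mul, mul_comm (2 * l)] at k5
    omega

theorem windowT {a V K J A : ℕ} (ha : Odd a) (ha3 : 3 ≤ a)
    (hA : a * ((K + 1) * (2 * (K + 1) ^ 2 + 4)) + 3 * a + 2 * (K + 1) ^ 2 + 2 ≤ A)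
    (x : ℕ → ℤ) (f : ℕ → ℕ) (hf : ∀ i, (f i : ℤ) = x i % 2)
    (h : ∀ i, 2 * x (i + 1) = a ^ f i * x i + f i) {u : ℕ → ℕ} (hu0 : u 0 = 0)
    (hu : PCut V K J x u) {R r l n : ℕ} (hR : 100 ≤ R)
    (hr : 60 * A ^ 3 * (r + 1) ≤ R) (hl : R ^ 20 ≤ l) (hV : V * R ^ 5 ≤ l)
    (hlo : ∀ i ≤ n, 2 ^ ((K + 1) * (2 * l)) ≤ |2 ^ V * x (u i)|)
    (hhi : ∀ i ≤ n, |2 ^ V * x (u i)| ≤ 2 ^ ((K + 1) * (4 * A * ((K + 1) * (2 * l)))))
    (h0 : |2 ^ V * x 0| ≤ 2 ^ ((K + 1) * ((K + 1) * (2 * l))))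
    (hn : 2 ^ (4 * A * ((K + 1) * (2 * l))) ≤ |2 ^ V * x (u n)|) (hJ : (J + 1) * n ≤ r) :
    BlkW a R (r + 1) (20 * A ^ 3 * (r + 1) * l) := by
  have hf1 : ∀ i, f i ≤ 1 := fun i => by have := hf i; omega
  have ab : ∀ y : ℤ, |2 ^ V * y| = 2 ^ V * |y| := fun y => by rw [abs_mul, abs_pow, abs_two]
  have aA : a ≤ A := by omega
  have A3 : 3 ≤ A := ha3.trans aA
  have a1 : A ≤ A ^ 3 := Nat.le_self_pow (by norm_num) A
  have hJ' : n ≤ r := (Nat.le_mul_of_pos_left _ J.succ_pos).trans hJ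
  have R1 : a * (n + 2) ≤ R := by nlinarith
  have R2 : 32 * R ^ 3 * (a * (n + 2) * V) ≤ l :=
    calc 32 * R ^ 3 * (a * (n + 2) * V) ≤ R * R ^ 3 * (R * V) := by gcongr; omega
      _ = V * R ^ 5 := by ring
      _ ≤ l := hV
  have R3 : (a ^ V) ^ (n + 2) ≤ 2 ^ (a * (n + 2) * V) := by
    rw [← pow_mul, mul_assoc, pow_mul 2, mul_comm V]
    exact Nat.pow_le_pow_left Nat.lt_two_pow_self.le _
  obtain ⟨w1, w2, w3, w4⟩ := win0T (c := 20 * A ^ 3 * (r + 1))
    (Nat.succ_le_of_lt (by positivity)) (by linarith) hR R3 R2 hl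
  have l1 : 60 * A ^ 3 * (r + 1) ≤ l := hr.trans ((Nat.le_self_pow (by norm_num) R).trans hl)
  have l2 : 60 * A + 60 * r ≤ l := by nlinarith
  have l3 : (n + 2) * V ≤ l := by
    refine le_trans ?_ R2
    refine le_trans ?_ (Nat.le_mul_of_pos_left _ (by positivity))
    exact Nat.mul_le_mul_right _ (Nat.le_mul_of_pos_left _ (by omega))
  have l4 : n * V + 2 * V ≤ l := by rwa [← add_mul]
  have b3 : 6 * u n ≤ 20 * A ^ 3 * (r + 1) * l :=
    calc 6 * u n ≤ 6 * (n * (J * ((K + 1) * (4 * A * ((K + 1) * (2 * l)))))) :=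
          Nat.mul_le_mul_left _ (hu.length hu0 n fun i hi => hhi i hi.le)
      _ = 24 * (2 * (K + 1) ^ 2) * A * (J * n) * l := by ring
      _ ≤ 20 * A * A * A * (r + 1) * l := by
          have : J * n ≤ (J + 1) * n := Nat.mul_le_mul_right _ J.le_succ
          gcongr <;> omega
      _ = _ := by ring
  have N1 : (K + 1) * ((K + 1) * (2 * l)) + 3 * l ≤ 20 * A ^ 3 * (r + 1) * l := by
    rw [show (K + 1) * ((K + 1) * (2 * l)) + 3 * l = (2 * (K + 1) ^ 2 + 3) * l by ring]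
    exact Nat.mul_le_mul_right _
      (le_trans (by omega) (Nat.le_mul_of_pos_right _ r.succ_pos))
  generalize 20 * A ^ 3 * (r + 1) * l = N at *
  have n1 : u n ≤ N := by omega
  have lo : ∀ i ≤ u n, 2 ^ l ≤ |x i| := fun i hi => by
    obtain ⟨j, k1, k2⟩ := hu.low hu0 n i hi
    exact winT_low (abs_nonneg _) (by omega) (by omega) (ab _ ▸ hlo j k1) k2
  have lo' : ∀ i ≤ u n, ((u n : ℕ) : ℤ) < |x i| := fun i hi =>
    lt_of_lt_of_le (by exact_mod_cast (show u n < N by omega).trans_le w2) (lo i hi)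
  choose v w c0 c0' c1 c2 c3 c4 using fun i => (hu i).2.2.2
  have m1 : ∀ j < n, u (j + 1) ≤ u n := fun j hj => hu.mono hj
  have hp := fun j (hj : j < n) => riseT x f hf1 h (fun i _ k2 => lt_of_le_of_lt
    (by exact_mod_cast (Nat.sub_le _ _).trans (m1 j hj)) (lo' i (k2.trans (m1 j hj)))) (c4 j)
  have ρ1 : ∀ j, K * (w j - u j + V) / (K + 1) ≤ w j - u j + V := fun j =>
    Nat.div_le_of_le_mul (Nat.mul_le_mul_right _ K.le_succ)
  have s1 := sizeT1 (by omega) x f hf1 h (n := u n) fun i hi => (lo' i hi.le).le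
  have s2 : 2 ^ u n * |2 ^ V * x (u n)| ≤ 3 * a ^ bb f (u n) * |2 ^ V * x 0| := by
    rw [ab, ab, mul_left_comm, mul_left_comm _ (2 ^ V)]
    exact mul_le_mul_of_nonneg_left (s1 _ le_rfl) (by positivity)
  have i1 := winB_int s2 (size2T (V := V) ha3 f hf1 hu0 c1 c2 n fun j hj =>
    (hp j hj _ le_rfl (c2 j)).trans (Nat.mul_le_mul_left _
      (Nat.pow_le_pow_right two_pos (by have := ρ1 j; omega)))) hn h0
  have i2 := winT_num K.succ_pos (by omega) (by omega) (by omega) hA i1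
  have i3 := gainT K V hu0 c1 c2 n
  obtain ⟨E, hE⟩ : ∃ E : ℕ → ℕ,
    E = fun j => u (j + 1) - w j + (K * (w j - u j + V) / (K + 1) + 1) := ⟨_, rfl⟩
  have i4 : ∑ j ∈ range n, E j + ((K + 1) * ((K + 1) * (2 * l)) + 1 + l / 2) ≤ u n := by
    refine Nat.le_of_add_le_add_right (b := n * (V + 1))
      (Nat.le_of_mul_le_mul_left ?_ K.succ_pos)
    rw [add_assoc, mul_add, hE]
    exact (Nat.add_le_add_left i2 _).trans i3
  obtain ⟨Q, g, g', q1, q2, q3, q4, q5⟩ := denT (H := (a : ℤ) ^ V)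
    (one_le_pow₀ (by exact_mod_cast (by omega : 1 ≤ a))) (fun j => 2 ^ (w j - u j))
    (fun j => a ^ (bb f (w j) - bb f (u j))) (fun j => x (u j)) (fun j => x (w j)) n fun j _ =>
      runT ha ha3 x f hf1 h (c1 j) (c0 j) (c0' j) fun i k1 k2 => by
        have := c3 j i k1 k2
        rw [← hf, ← hf] at this
        exact_mod_cast this
  have r1 := repT (a := a) f (fun j => Q * x (u j) + g j) (fun j => Q * x (w j) + g' j)
    hu0 c1 c2 n q5
  obtain ⟨s, hs⟩ : ∃ s : ℕ → ℤ, s = fun j => 2 ^ (u (j + 1) - w j) * (Q * x (u (j + 1)) + g (j + 1))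
    - a ^ (bb f (u (j + 1)) - bb f (w j)) * (Q * x (w j) + g' j) := ⟨_, rfl⟩
  have P0 : 1 ≤ (a ^ V) ^ (n + 2) := Nat.succ_le_of_lt (by positivity)
  have P1 : (((a ^ V) ^ (n + 2) : ℕ) : ℤ) = ((a : ℤ) ^ V) ^ (n + 2) := by push_cast; rfl
  rw [← P1] at q2 q3 q4
  generalize (a ^ V) ^ (n + 2) = P at *
  have q2' : |Q| ≤ P := by rwa [abs_of_nonneg (by omega)]
  have W1 : ∀ j < n, (((u (j + 1) - w j : ℕ) : ℤ) + 2) * P * 3 ≤ (N * P : ℕ) := fun j hj => by
    have k1 := m1 j hj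
    have k2 : (u (j + 1) - w j + 2) * P * 3 ≤ N * P := by
      rw [mul_right_comm]
      exact Nat.mul_le_mul_right _ (by omega)
    exact_mod_cast k2
  have W3 : P ≤ N * P := Nat.le_mul_of_pos_left _ (by omega)
  generalize N * P = W at *
  have l5 : (2 : ℤ) * P ≤ 2 ^ l := by
    have k1 : 2 * P ≤ 2 ^ l :=
      le_trans ((show 2 * P ≤ 6 * W by omega).trans (Nat.le_mul_of_pos_right _ (by positivity))) w3
    exact_mod_cast k1
  have W2 : ∀ j < n, |s j| ≤ W * 2 ^ E j := fun j hj => by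
    have k1 := pieceT x f hf1 h (μ := 1)
      (X := 3 * 2 ^ (u (j + 1) + (K * (w j - u j + V) / (K + 1) + 1))) zero_le_one q2'
      (q3 (j + 1)) (q4 j) (c2 j)
      fun i k1 k2 => by exact_mod_cast (mul_one _).trans_le (hp j hj i k1 k2)
    rw [mul_one, ← mul_assoc, show u (j + 1) + (K * (w j - u j + V) / (K + 1) + 1) =
      E j + w j by have := c2 j; simp only [hE]; omega, pow_add, ← mul_assoc] at k1
    rw [hs]
    exact (le_of_mul_le_mul_right k1 (by positivity)).trans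
      (mul_le_mul_of_nonneg_right (W1 j hj) (by positivity))
  rw [hu0] at r1
  obtain ⟨D, hD⟩ : ∃ D, D = Q * x 0 + g 0 := ⟨_, rfl⟩
  have e1 : |Q * x 0| = Q * |x 0| := by rw [abs_mul, abs_of_nonneg (by omega)]
  have e2 := abs_add_le (Q * x 0) (g 0)
  have e3 := abs_sub (Q * x 0 + g 0) (g 0)
  rw [add_sub_cancel_right, ← hD] at e3
  rw [← hD] at e2 r1
  have e4 := q3 0
  have e5 := l5.trans (lo 0 (Nat.zero_le _))
  have e6 : |x 0| ≤ 2 ^ ((K + 1) * ((K + 1) * (2 * l))) := by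
    refine le_trans ?_ h0
    rw [ab]
    exact le_mul_of_one_le_left (abs_nonneg _) (one_le_pow₀ one_le_two)
  have D1 : |x 0| ≤ 2 * |D| := by nlinarith
  have D2 : |D| ≤ W * 2 ^ ((K + 1) * ((K + 1) * (2 * l)) + 1) :=
    calc |D| ≤ P * (2 * |x 0|) := by nlinarith
      _ ≤ W * (2 * 2 ^ ((K + 1) * ((K + 1) * (2 * l)))) := by gcongr
      _ = _ := by ring
  have W4 : ∀ j < n, 2 ^ (l / 2) * |s j * ((a : ℤ) ^ (bb f (u n) - bb f (u (j + 1))) * 2 ^ w j)| ≤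
      |D * ((a : ℤ) ^ bb f (u n) * 2 ^ 0)| := fun j hj => by
    have k0 := m1 j hj
    have k1 := pieceT x f hf1 h (μ := 2 ^ l) (X := 3 * (a ^ bb f (u (j + 1)) * |x 0|))
      (by positivity) q2' (q3 (j + 1)) (q4 j) (c2 j) fun i _ k2 =>
        calc (a : ℤ) ^ (bb f (u (j + 1)) - bb f i) * 2 ^ i * 2 ^ l
            ≤ a ^ (bb f (u (j + 1)) - bb f i) * 2 ^ i * |x i| := by
              gcongr
              exact lo i (k2.trans k0)
          _ ≤ a ^ (bb f (u (j + 1)) - bb f i) * (3 * a ^ bb f i * |x 0|) := by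
              rw [mul_assoc]
              exact mul_le_mul_of_nonneg_left (s1 i (k2.trans k0)) (by positivity)
          _ = _ := by
              rw [← pow_sub_mul_pow (a : ℤ) (bb_mono f k2)]
              ring
    rw [← mul_assoc] at k1
    have k2 : |s j| * 2 ^ w j * 2 ^ l ≤ W * (a ^ bb f (u (j + 1)) * (2 * |D|)) := by
      rw [hs]
      exact k1.trans (mul_le_mul (W1 j hj) (by gcongr) (by positivity) (by positivity))
    have k3 : 6 * (W : ℤ) * 2 ^ (l / 2) ≤ 2 ^ l := by exact_mod_cast w3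
    have k4 := bb_mono f k0
    rw [abs_mul, abs_mul D, abs_of_nonneg (by positivity : 0 ≤ (a : ℤ) ^ bb f (u n) * 2 ^ 0),
      abs_of_nonneg (by positivity : 0 ≤ (a : ℤ) ^ (bb f (u n) - bb f (u (j + 1))) * 2 ^ w j)]
    refine le_of_mul_le_mul_right ?_ (show (0 : ℤ) < 2 ^ l by positivity)
    calc 2 ^ (l / 2) * (|s j| * ((a : ℤ) ^ (bb f (u n) - bb f (u (j + 1))) * 2 ^ w j)) * 2 ^ l
        = 2 ^ (l / 2) * a ^ (bb f (u n) - bb f (u (j + 1))) * (|s j| * 2 ^ w j * 2 ^ l) := by ring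
      _ ≤ 2 ^ (l / 2) * a ^ (bb f (u n) - bb f (u (j + 1))) *
          (W * (a ^ bb f (u (j + 1)) * (2 * |D|))) := by gcongr
      _ = |D| * (a ^ (bb f (u n) - bb f (u (j + 1))) * a ^ bb f (u (j + 1)) * 2 ^ 0) *
          (2 * W * 2 ^ (l / 2)) := by ring
      _ ≤ _ := by
          rw [pow_sub_mul_pow (a : ℤ) k4]
          gcongr
          exact le_trans (by gcongr; norm_num) k3
  have n2 := (winT_bb hf1 (u n)).trans n1
  refine ⟨Fin.cons (bb f (u n)) fun j => if (j : ℕ) < n then bb f (u n) - bb f (u (j + 1)) else 0,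
    Fin.cons 0 fun j => if (j : ℕ) < n then w j else 0,
    Fin.cons ((K + 1) * ((K + 1) * (2 * l)) + 1) fun j => if (j : ℕ) < n then E j else 0, u n,
    l / 2, Fin.cons D fun j => if (j : ℕ) < n then s j else 0, (W : ℝ), fun j => ?_, n1, rfl,
    fun j => ?_, ?_, w1, by exact_mod_cast P0.trans W3, w4, fun j => ?_,
    ⟨Q * x (u n) + g n, ?_⟩, fun k => ?_, fun j => ?_⟩
  · refine Fin.cases n2 (fun j => ?_) j
    rw [Fin.cons_succ]
    split_ifs with k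
    exacts [(Nat.sub_le _ _).trans n2, Nat.zero_le _]
  · refine Fin.cases (show 0 + ((K + 1) * ((K + 1) * (2 * l)) + 1) ≤ N by omega) (fun j => ?_) j
    rw [Fin.cons_succ, Fin.cons_succ]
    split_ifs with k
    · have k2 := (c2 j).trans (m1 j k)
      have k3 : E j ≤ ∑ i ∈ range n, E i :=
        single_le_sum (f := E) (fun _ _ => Nat.zero_le _) (mem_range.2 k)
      omega
    · exact Nat.zero_le _
  · rw [Fin.sum_univ_succ]
    simp only [Fin.cons_zero, Fin.cons_succ]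
    rw [winM_sum E hJ']
    omega
  · refine Fin.cases ?_ (fun j => ?_) j
    · rw [Fin.cons_zero, Fin.cons_zero]
      exact_mod_cast D2
    rw [Fin.cons_succ, Fin.cons_succ]
    split_ifs with k
    · exact_mod_cast W2 j k
    · simp
  · rw [Fin.sum_univ_succ, r1, ← winM_sum _ hJ']
    simp only [Fin.cons_zero, Fin.cons_succ, pow_zero, mul_one, hs]
    rw [mul_comm]
    congr 1
    refine sum_congr rfl fun j _ => ?_
    split_ifs
    exacts [rfl, zero_mul _]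
  · rw [Fin.cons_zero] at k
    rw [k, abs_zero] at D1
    omega
  · refine Fin.cases (fun k => absurd rfl k) (fun j _ => ?_) j
    simp only [Fin.cons_zero, Fin.cons_succ]
    split_ifs with k
    · exact W4 j k
    · rw [zero_mul, abs_zero, mul_zero]
      exact abs_nonneg _

end Pool.Agent.Lib.MP_dee342_nt.Ar
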