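import Pool.Agent.Lib.MP_dee342_nt.Ar.Lev
import Pool.Agent.Lib.MP_dee342_nt.Ar4.Lev0
import Pool.Agent.Lib.MP_dee342_nt.Ar5.Win

/-! Counting the levels along the cut points, and the length of a cycle with few blocks. -/

namespace Pool.Agent.Lib.MP_dee342_nt.Ar

open Finset

theorem levT_sum {s n : ℕ → ℕ} {H k : ℕ}
    (hw : ∀ w < H, s w + n w ≤ k ∧ (w + 1 < H → s w + n w ≤ s (w + 1))) :
    ∑ w ∈ range H, n w ≤ k := by
  have h1 : ∀ x < H, ∑ w ∈ range (x + 1), n w ≤ s x + n x := by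
    intro x
    induction x with
    | zero =>
      intro _
      rw [sum_range_one]
      exact Nat.le_add_left _ _
    | succ x ih =>
      intro hv
      rw [sum_range_succ]
      exact Nat.add_le_add_right ((ih (by omega)).trans ((hw x (by omega)).2 hv)) _
  cases H with
  | zero => simp
  | succ x => exact (h1 x (by omega)).trans (hw x (by omega)).1

theorem levT_step {V K m : ℕ} {y z : ℤ} (hy : y ≠ 0) (h : |z| ≤ (2 ^ V * |y|) ^ K)
    (hm : |2 ^ V * y| ≤ 2 ^ m) : |2 ^ V * z| ≤ 2 ^ ((K + 1) * m) := by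
  rw [abs_mul, abs_pow, abs_two] at hm ⊢
  have h1 : (2 : ℤ) ^ V ≤ 2 ^ m :=
    (le_mul_of_one_le_right (by positivity) (Int.one_le_abs hy)).trans hm
  rw [mul_comm, pow_mul', pow_succ]
  exact mul_le_mul (h.trans (pow_le_pow_left₀ (by positivity) hm K)) h1 (by positivity)
    (by positivity)

theorem levelsT {a V K J A : ℕ} (ha : Odd a) (ha3 : 3 ≤ a)
    (hA : a * ((K + 1) * (2 * (K + 1) ^ 2 + 4)) + 3 * a + 2 * (K + 1) ^ 2 + 2 ≤ A)
    (x : ℕ → ℤ) (f : ℕ → ℕ) (hf : ∀ i, (f i : ℤ) = x i % 2)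
    (h : ∀ i, 2 * x (i + 1) = a ^ f i * x i + f i) {u : ℕ → ℕ} (hu : PCut V K J x u)
    {R r Z k : ℕ} (hR : 100 ≤ R) (hr : 60 * A ^ 3 * (r + 1) ≤ R) (hZ : R ^ 20 * 2 ^ R ^ 14 ≤ Z)
    (hV : V * R ^ 5 ≤ Z) (h0 : |2 ^ V * x (u 0)| ≤ 2 ^ ((K + 1) * (2 * Z)))
    (hq : ∀ N : Fin (R ^ 13) → ℕ, (∀ w, R ^ 20 * 2 ^ R ^ 14 ≤ N w) →
      (∀ w w', w < w' → 2 ^ R ^ 14 * N w ≤ N w') → (∀ w, BlkW a R (r + 1) (N w)) → False) :
    |2 ^ V * x (u k)| ≤
      2 ^ ((K + 1) * ((4 * A) ^ ((J + 1) * k / (r + 1) + R ^ 27) * (2 * Z))) := by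
  by_contra hc
  have hA1 : 1 ≤ A := by omega
  have h14 : 1 ≤ R ^ 14 := Nat.one_le_pow _ _ (by omega)
  have hZ20 : R ^ 20 ≤ Z := le_trans (Nat.le_mul_of_pos_right _ (by positivity)) hZ
  have hl : ∀ w, Z ≤ (4 * A) ^ w * Z := fun w => Nat.le_mul_of_pos_left _ (by positivity)
  obtain ⟨s, n, hw⟩ := levB_windows hA1 K.succ_pos (fun i => 2 ^ V * x (u i))
    (fun i m hi => levT_step (pblk_ne (hu i)) ((hu i).2.2.1 _ le_rfl (hu i).1.le) hi) h0
    (not_le.1 hc)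
  have hcard := lev_card (fun w => (J + 1) * n w)
    ((mul_sum _ _ _).symm.trans_le (Nat.mul_le_mul_left _
      (levT_sum fun w hw' => ⟨(hw w hw').1, (hw w hw').2.1⟩))) rfl
  obtain ⟨φ, hφ, hsep⟩ := exists_sepA _ (fun w => 20 * A ^ 3 * (r + 1) * ((4 * A) ^ w * Z))
    (fun w _ w' _ hlt => by
      have h3 : (4 * A) ^ (w + 1) ≤ (4 * A) ^ w' := Nat.pow_le_pow_right (by omega) hlt
      have h4 : 2 * (4 * A) ^ w ≤ (4 * A) ^ w' := by
        refine le_trans ?_ h3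
        rw [pow_succ']
        exact Nat.mul_le_mul_right _ (by omega)
      rw [mul_left_comm, ← mul_assoc 2]
      exact Nat.mul_le_mul_left _ (Nat.mul_le_mul_right _ h4))
    (R ^ 14) (R ^ 13) (by rw [← pow_add]; exact hcard) h14
  refine hq (fun w => 20 * A ^ 3 * (r + 1) * ((4 * A) ^ φ w * Z)) (fun w => ?_) hsep fun w => ?_
  · exact (hZ.trans (hl _)).trans (Nat.le_mul_of_pos_left _ (by positivity))
  · obtain ⟨h3, h4⟩ := mem_filter.1 (hφ w)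
    obtain ⟨-, -, h5, h6, h7, h8⟩ := hw _ (mem_range.1 h3)
    have h9 : ∀ i, u (s (φ w)) + (u (s (φ w) + i) - u (s (φ w))) = u (s (φ w) + i) := fun i =>
      Nat.add_sub_cancel' (hu.mono (Nat.le_add_right _ _))
    rw [mul_left_comm ((4 * A) ^ φ w)] at h5 h6 h7 h8
    exact windowT ha ha3 hA (fun i => x (u (s (φ w)) + i)) (fun i => f (u (s (φ w)) + i))
      (fun i => hf _) (fun i => h _) (u := fun i => u (s (φ w) + i) - u (s (φ w)))
      (Nat.sub_self _) (hu.shift (s (φ w))) (n := n (φ w)) hR hr (hZ20.trans (hl _))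
      (hV.trans (hl _)) (by simpa only [h9] using h5) (by simpa only [h9] using h6) h7
      (by simpa only [h9] using h8) h4

theorem cycT {a V K J A M k : ℕ} (ha : Odd a) (ha3 : 3 ≤ a)
    (hA : a * ((K + 1) * (2 * (K + 1) ^ 2 + 4)) + 3 * a + 2 * (K + 1) ^ 2 + 2 ≤ A)
    (x : ℕ → ℤ) (f : ℕ → ℕ) (hf : ∀ i, (f i : ℤ) = x i % 2)
    (h : ∀ i, 2 * x (i + 1) = a ^ f i * x i + f i) {w : ℕ → ℕ} (hw0 : w 0 = 0)
    (hw : PCut V K J x w) (hk0 : 0 < k) (hk : ∀ i, w (i + M) = w i + k)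
    (hx : ∀ i, x (i + k) = x i) {R r Z i₀ : ℕ} (hR : 100 ≤ R) (hr : 60 * A ^ 3 * (r + 1) ≤ R)
    (hZ : R ^ 20 * 2 ^ R ^ 14 ≤ Z) (hV : V * R ^ 5 ≤ Z) (h0 : |x i₀| ≤ 2 ^ Z)
    (hq : ∀ N : Fin (R ^ 13) → ℕ, (∀ w, R ^ 20 * 2 ^ R ^ 14 ≤ N w) →
      (∀ w w', w < w' → 2 ^ R ^ 14 * N w ≤ N w') → (∀ w, BlkW a R (r + 1) (N w)) → False) :
    k ≤ M * (J * ((K + 1) * ((4 * A) ^ ((J + 1) * M / (r + 1) + R ^ 27) * (2 * Z)))) := by
  have hM : w M = k := by simpa [hw0] using hk 0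
  have h3 : x (i₀ % k) = x i₀ := Function.Periodic.map_mod_nat hx i₀
  obtain ⟨j, hj, h4⟩ := hw.low hw0 M (i₀ % k) ((Nat.mod_lt _ hk0).le.trans hM.ge)
  rw [h3] at h4
  have hVZ : V ≤ Z := (Nat.le_mul_of_pos_right _ (by positivity)).trans hV
  have h1 : (2 : ℤ) ^ V ≤ 2 ^ Z := pow_le_pow_right₀ one_le_two hVZ
  have h2 : 2 ^ V * |x i₀| ≤ 2 ^ (2 * Z) := by
    rw [two_mul, pow_add]
    gcongr
  have h5 : |2 ^ V * x (w j)| ≤ 2 ^ ((K + 1) * (2 * Z)) := by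
    rw [abs_mul, abs_pow, abs_two]
    rcases h4 with h4 | h4
    · exact (h4.trans h2).trans
        (pow_le_pow_right₀ one_le_two (Nat.le_mul_of_pos_left _ K.succ_pos))
    · rw [pow_mul', pow_succ']
      exact h4.trans (mul_le_mul (h1.trans (pow_le_pow_right₀ one_le_two (by omega)))
        (pow_le_pow_left₀ (by positivity) h2 K) (by positivity) (by positivity))
  have h6 := (hw.shift j).length (Nat.sub_self _) M fun i hi =>
    (levelsT ha ha3 hA (fun i => x (w j + i)) (fun i => f (w j + i)) (fun i => hf _) (fun i => h _)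
      (hw.shift j) hR hr hZ hV (by simpa using h5) hq).trans (pow_le_pow_right₀ one_le_two
        (Nat.mul_le_mul_left _ (Nat.mul_le_mul_right _ (Nat.pow_le_pow_right (by omega)
          (Nat.add_le_add_right (Nat.div_le_div_right (Nat.mul_le_mul_left _ hi.le)) _)))))
  rwa [hk, Nat.add_sub_cancel_left] at h6

end Pool.Agent.Lib.MP_dee342_nt.Ar
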