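import Pool.Agent.Lib.MP_dee342_nt.Ar5.Lev
import Pool.Agent.Lib.MP_dee342_nt.Ar5.Asym
import Pool.Agent.Lib.MP_dee342_nt.Ar.Sub
import Pool.Agent.Lib.MP_dee342_nt.QAsym
import Pool.Agent.Lib.MP_dee342_nt.MinBound

/-! Cycles cut into blocks. -/

namespace Pool.Agent.Lib.MP_dee342_nt.Ar

open Finset Function Pool.Agent.Lib.MP_dee342_nt.Q

theorem T_step {a : ℕ} (ha : Odd a) (x : ℤ) :
    2 * T a x = a ^ (x % 2).toNat * x + ((x % 2).toNat : ℕ) := by
  obtain ⟨b, rfl⟩ := ha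
  rcases Int.emod_two_eq_zero_or_one x with h | h
  · simp only [T, h]
    simp
    omega
  · obtain ⟨c, rfl⟩ : ∃ c, x = 2 * c + 1 := ⟨x / 2, by omega⟩
    have e : ((2 * b + 1 : ℕ) : ℤ) * (2 * c + 1) + 1 = 2 * (2 * b * c + b + c + 1) := by
      push_cast
      ring
    simp only [T, h]
    simp only [one_ne_zero, if_false, Int.toNat_one, pow_one, Nat.cast_one, e]
    omega

theorem rpow_scale {c x : ℝ} (hc : 1 ≤ c) (hx : 0 ≤ x) :
    (c * x) ^ (27 / 28 : ℝ) ≤ c * x ^ (27 / 28 : ℝ) := by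
  rw [Real.mul_rpow (by linarith) hx]
  exact mul_le_mul_of_nonneg_right (Real.rpow_le_self_of_one_le hc (by norm_num)) (by positivity)

theorem mainT {a : ℕ} (ha : Odd a) (ha3 : 3 ≤ a) (K : ℕ) : ∃ C : ℝ, 0 ≤ C ∧
    ∀ (V J M : ℕ) (x : ℤ) (u : ℕ → ℕ), 0 < M → u 0 = 0 → (T a)^[u M] x = x →
      (∀ i < M, PerBlock V K J (fun j => (T a)^[j] x) (u i) (u (i + 1))) →
      Real.log (minimalPeriod (T a) x) ≤ Real.log V + C * ((J + 1) * M : ℝ) ^ (27 / 28 : ℝ) := by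
  obtain ⟨C₀, -, hC₀⟩ := min_bound a ha ha3
  obtain ⟨A, hA⟩ : ∃ A, a * ((K + 1) * (2 * (K + 1) ^ 2 + 4)) + 3 * a + 2 * (K + 1) ^ 2 + 2 ≤ A :=
    ⟨_, le_rfl⟩
  have aA : a ≤ A := by omega
  obtain ⟨C₁, c0, hC₁⟩ := asymT A (ha3.trans aA) C₀
  refine ⟨C₁ * 2, by positivity, fun V J M x u hM hu0 hk hu => ?_⟩
  have hxk : ∀ i, (T a)^[i + u M] x = (T a)^[i] x := fun i => by rw [iterate_add_apply, hk]
  obtain ⟨w, hw0, hw, hwk⟩ := pcut_ext (fun j => (T a)^[j] x) u hM hu0 hxk hu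
  have hk0 : 0 < u M := by
    have h1 := hwk 0
    have h2 := strictMono_nat_of_lt_succ (fun i => (hw i).1) hM
    rw [zero_add] at h1
    omega
  have hV : 0 < V := by
    obtain ⟨v, -, h1, h2, -⟩ := (hw 0).2.2.2
    omega
  have hb : IsPeriodicPt (T a) (u M) x := hk
  have h3 := hC₁ ((J + 1) * M) (minimalPeriod (T a) x) V hV fun R r Z hR hr hZ hp => by
    obtain ⟨t, -, h4⟩ := hC₀ x _ (hb.minimalPeriod_pos hk0) (isPeriodicPt_minimalPeriod (T a) x)
    have h6 : |(T a)^[t] x| ≤ 2 ^ (V * Z) := by exact_mod_cast h4.trans hp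
    have h7 : 10 ^ 7 ≤ R := (Nat.le_mul_of_pos_right _ (by positivity)).trans hR
    have h8 : 2 * (r + 1) ≤ 60 * A ^ 3 * (r + 1) :=
      Nat.mul_le_mul_right _ (by have := Nat.one_le_pow 3 A (by omega); omega)
    have h9 : R ^ 5 ≤ Z := ((Nat.pow_le_pow_right (by omega) (by norm_num)).trans
      (Nat.le_mul_of_pos_right _ (by positivity))).trans hZ
    refine (hb.minimalPeriod_le hk0).trans ((cycT ha ha3 hA _ (fun j => ((T a)^[j] x % 2).toNat)
      (fun i => Int.toNat_of_nonneg (by omega)) (fun i => ?_) hw0 hw hk0 hwk hxk (by omega) hr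
      (hZ.trans (Nat.le_mul_of_pos_left _ hV)) (Nat.mul_le_mul_left _ h9) h6
      fun N k1 k2 k3 => ?_).trans ?_)
    · rw [iterate_succ_apply']
      exact T_step ha _
    · refine qsubW ha (le_trans (by gcongr) hR) (by omega) (Fintype.card_fin _) N
        (fun i => (Nat.mul_le_mul_left _ (om_le h7)).trans (k1 i)) (fun i j hij => ?_) k3
      exact (lt_or_gt_of_ne hij).imp
        (fun c => (Nat.mul_le_mul_right _ (om_le h7)).trans (k2 _ _ c))
        fun c => (Nat.mul_le_mul_right _ (om_le h7)).trans (k2 _ _ c)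
    · generalize (4 * A) ^ ((J + 1) * M / (r + 1) + R ^ 27) = X
      have k1 : K + 1 ≤ A := (Nat.le_self_pow two_ne_zero _).trans (by omega)
      have k2 : J * M ≤ (J + 1) * M + 1 := by nlinarith
      calc M * (J * ((K + 1) * (X * (2 * (V * Z)))))
          = V * (2 * ((K + 1) * 1) * (J * M) * (X * Z)) := by ring
        _ ≤ V * (4 * (A * A) * ((J + 1) * M + 1) * (X * Z)) := by gcongr <;> omega
        _ = _ := by ring
  have m1 : (1 : ℝ) ≤ (J + 1) * M := by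
    exact_mod_cast Nat.mul_pos J.succ_pos hM
  have h4 : ((((J + 1) * M : ℕ) : ℝ) + 1) ^ (27 / 28 : ℝ) ≤
      2 * ((J + 1) * M : ℝ) ^ (27 / 28 : ℝ) := by
    refine le_trans (Real.rpow_le_rpow (by positivity) ?_ (by norm_num))
      (rpow_scale one_le_two (by positivity))
    push_cast
    linarith
  rw [mul_assoc]
  exact h3.trans (add_le_add_right (mul_le_mul_of_nonneg_left h4 c0) _)

end Pool.Agent.Lib.MP_dee342_nt.Ar
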