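import Pool.Agent.Lib.MP_dee342_nt.Ar.Seq

/-! Sizes along an orbit with large terms. -/

namespace Pool.Agent.Lib.MP_dee342_nt.Ar

open Finset

/-- Twin of `size1` in `Ar/Size.lean` (same proof: `2` for `2 ^ e t`, `a ^ f t ≥ 1` for `a`,
`f t ≤ 1` for `1`). -/
theorem sizeT1 {a : ℕ} (ha : 1 ≤ a) (x : ℕ → ℤ) (f : ℕ → ℕ) (hf : ∀ i, f i ≤ 1)
    (h : ∀ i, 2 * x (i + 1) = a ^ f i * x i + f i) {n : ℕ} (hn : ∀ i < n, (n : ℤ) ≤ |x i|) :
    ∀ t ≤ n, 2 ^ t * |x t| ≤ 3 * a ^ bb f t * |x 0| := by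
  have ha' : (1 : ℝ) ≤ a := by exact_mod_cast ha
  have key : ∀ t ≤ n, (2 : ℝ) ^ t * |(x t : ℝ)| ≤
      Real.exp (t / n) * a ^ bb f t * |(x 0 : ℝ)| := by
    intro t
    induction t with
    | zero => intro _; simp [bb]
    | succ t ih =>
      intro ht
      have hn0 : (0 : ℝ) < n := by exact_mod_cast (by omega : 0 < n)
      have h1 : (n : ℝ) ≤ |(x t : ℝ)| := by exact_mod_cast hn t (by omega)
      have h2 : (2 : ℝ) * (x (t + 1) : ℝ) = a ^ f t * x t + f t := by exact_mod_cast h t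
      have hA : (1 : ℝ) ≤ a ^ f t := one_le_pow₀ ha'
      have hF : (f t : ℝ) ≤ 1 := by exact_mod_cast hf t
      have h3 : (2 : ℝ) * |(x (t + 1) : ℝ)| ≤ a ^ f t * |(x t : ℝ)| + 1 := by
        have := abs_add_le ((a : ℝ) ^ f t * x t) (f t)
        rw [← h2, abs_mul, abs_mul, abs_two,
          abs_of_nonneg (by positivity : (0 : ℝ) ≤ a ^ f t), Nat.abs_cast] at this
        linarith
      have h4 : 1 ≤ (a : ℝ) ^ f t * |(x t : ℝ)| * (1 / n) := by
        rw [mul_one_div, le_div_iff₀ hn0]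
        nlinarith
      have h5 : 1 / (n : ℝ) + 1 ≤ Real.exp (1 / n) := Real.add_one_le_exp _
      have h6 : (2 : ℝ) * |(x (t + 1) : ℝ)| ≤ Real.exp (1 / n) * a ^ f t * |(x t : ℝ)| := by
        have : 0 ≤ (a : ℝ) ^ f t * |(x t : ℝ)| := by positivity
        nlinarith
      have h7 := ih (by omega)
      rw [bb_succ, pow_succ, mul_assoc, pow_add, Nat.cast_succ, add_div, Real.exp_add]
      calc (2 : ℝ) ^ t * (2 * |(x (t + 1) : ℝ)|)
          ≤ 2 ^ t * (Real.exp (1 / n) * a ^ f t * |(x t : ℝ)|) := by gcongr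
        _ = Real.exp (1 / n) * a ^ f t * (2 ^ t * |(x t : ℝ)|) := by ring
        _ ≤ Real.exp (1 / n) * a ^ f t * (Real.exp (t / n) * a ^ bb f t * |(x 0 : ℝ)|) := by
          gcongr
        _ = _ := by ring
  intro t ht
  have h1 : Real.exp (t / n) ≤ 3 := by
    refine (Real.exp_le_exp.2 (div_le_one_of_le₀ (by exact_mod_cast ht) (by positivity))).trans ?_
    have := Real.exp_one_lt_d9
    linarith
  have h2 : (2 : ℝ) ^ t * |(x t : ℝ)| ≤ 3 * a ^ bb f t * |(x 0 : ℝ)| :=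
    (key t ht).trans (by gcongr)
  exact_mod_cast h2

/-- Twin of `size3` in `Ar2/Size3.lean`. -/
theorem sizeT3 {a : ℕ} (x : ℕ → ℤ) (f : ℕ → ℕ) (hf : ∀ i, f i ≤ 1)
    (h : ∀ i, 2 * x (i + 1) = a ^ f i * x i + f i) {n : ℕ} (hn : ∀ i ≤ n, (n : ℤ) ≤ |x i|) :
    ∀ t ≤ n, (a : ℤ) ^ bb f t * |x 0| ≤ 3 * 2 ^ t * |x t| := by
  have key : ∀ t ≤ n, (a : ℝ) ^ bb f t * |(x 0 : ℝ)| ≤
      Real.exp (t / n) * 2 ^ t * |(x t : ℝ)| := by
    intro t
    induction t with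
    | zero => intro _; simp [bb]
    | succ t ih =>
      intro ht
      have hn0 : (0 : ℝ) < n := by exact_mod_cast (by omega : 0 < n)
      have h1 : (n : ℝ) ≤ |(x (t + 1) : ℝ)| := by exact_mod_cast hn (t + 1) ht
      have h2 : (2 : ℝ) * (x (t + 1) : ℝ) = a ^ f t * x t + f t := by exact_mod_cast h t
      have hF : (f t : ℝ) ≤ 1 := by exact_mod_cast hf t
      have h3 : a ^ f t * |(x t : ℝ)| ≤ (2 : ℝ) * |(x (t + 1) : ℝ)| + 1 := by
        have := abs_sub ((2 : ℝ) * (x (t + 1) : ℝ)) (f t)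
        rw [show (2 : ℝ) * (x (t + 1) : ℝ) - f t = a ^ f t * x t by linarith, abs_mul, abs_mul,
          abs_two, abs_of_nonneg (by positivity : (0 : ℝ) ≤ a ^ f t), Nat.abs_cast] at this
        linarith
      have h4 : 1 ≤ (2 : ℝ) * |(x (t + 1) : ℝ)| * (1 / n) := by
        rw [mul_one_div, le_div_iff₀ hn0]
        nlinarith
      have h5 : 1 / (n : ℝ) + 1 ≤ Real.exp (1 / n) := Real.add_one_le_exp _
      have h6 : a ^ f t * |(x t : ℝ)| ≤ Real.exp (1 / n) * (2 * |(x (t + 1) : ℝ)|) := by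
        have : 0 ≤ (2 : ℝ) * |(x (t + 1) : ℝ)| := by positivity
        nlinarith
      have h7 := ih (by omega)
      rw [bb_succ, pow_succ, pow_add, Nat.cast_succ, add_div, Real.exp_add]
      calc (a : ℝ) ^ bb f t * a ^ f t * |(x 0 : ℝ)|
          = a ^ f t * (a ^ bb f t * |(x 0 : ℝ)|) := by ring
        _ ≤ a ^ f t * (Real.exp (t / n) * 2 ^ t * |(x t : ℝ)|) := by gcongr
        _ = Real.exp (t / n) * 2 ^ t * (a ^ f t * |(x t : ℝ)|) := by ring
        _ ≤ Real.exp (t / n) * 2 ^ t *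
            (Real.exp (1 / n) * (2 * |(x (t + 1) : ℝ)|)) := by gcongr
        _ = _ := by ring
  intro t ht
  have h1 : Real.exp (t / n) ≤ 3 := by
    refine (Real.exp_le_exp.2 (div_le_one_of_le₀ (by exact_mod_cast ht) (by positivity))).trans ?_
    have := Real.exp_one_lt_d9
    linarith
  have h2 : (a : ℝ) ^ bb f t * |(x 0 : ℝ)| ≤ 3 * 2 ^ t * |(x t : ℝ)| :=
    (key t ht).trans (by gcongr)
  exact_mod_cast h2

end Pool.Agent.Lib.MP_dee342_nt.Ar
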